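import Pool.Agent.Q240.KS.Stm1
import Pool.Agent.H376R2.MR.Fej

/-! # KS-LSD (helper257, for helper240): dual large sieve at separated points -/

set_option autoImplicit false

namespace Pool.Agent.Q257.KS
open Finset Pool.Agent.Q240.KS Pool.Agent.H376R2.MR

/-- sum over separated points is at most the sum over indices -/
lemma sep_sum {σ B : ℝ} (hσ : 0 < σ) (U : Finset ℝ) (x : ℝ → ℝ) (f : ℝ → ℝ) (g : ℕ → ℝ)
    (hg : ∀ j, 0 ≤ g j) (hx0 : ∀ u ∈ U, 0 ≤ x u ∧ x u ≤ B)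
    (hsep : ∀ u ∈ U, ∀ u' ∈ U, u ≠ u' → σ ≤ |x u - x u'|)
    (hf : ∀ u ∈ U, f u ≤ g ⌊x u / σ⌋₊) :
    ∑ u ∈ U, f u ≤ ∑ j ∈ range (⌊B / σ⌋₊ + 1), g j := by
  classical
  have hinj : Set.InjOn (fun u => ⌊x u / σ⌋₊) (U : Set ℝ) := by
    intro u hu u' hu' h
    by_contra hne
    have h1 := hsep u hu u' hu' hne
    have ha := hx0 u hu
    have hb := hx0 u' hu'
    have h : ⌊x u / σ⌋₊ = ⌊x u' / σ⌋₊ := h
    have e1 := Nat.floor_le (div_nonneg ha.1 hσ.le)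
    have e2 := Nat.lt_floor_add_one (x u / σ)
    have e3 := Nat.floor_le (div_nonneg hb.1 hσ.le)
    have e4 := Nat.lt_floor_add_one (x u' / σ)
    rw [h] at e1 e2
    have h2 : |x u / σ - x u' / σ| < 1 := by
      rw [abs_lt]; constructor <;> linarith
    rw [← sub_div, abs_div, abs_of_pos hσ, div_lt_one hσ] at h2
    linarith
  calc ∑ u ∈ U, f u ≤ ∑ u ∈ U, g ⌊x u / σ⌋₊ := Finset.sum_le_sum hf
    _ = ∑ j ∈ U.image (fun u => ⌊x u / σ⌋₊), g j := by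
        rw [Finset.sum_image hinj]
    _ ≤ _ := by
        refine Finset.sum_le_sum_of_subset_of_nonneg ?_ (fun j _ _ => hg j)
        intro j hj
        obtain ⟨u, hu, rfl⟩ := Finset.mem_image.1 hj
        have h1 : ⌊x u / σ⌋₊ ≤ ⌊B / σ⌋₊ := Nat.floor_le_floor (by have := (hx0 u hu).2; gcongr)
        exact Finset.mem_range.2 (by omega)

/-- `∑_{J ≤ j < N} 1/j² ≤ 2/J` -/
lemma tail_sq (J N : ℕ) (hJ : 1 ≤ J) : ∑ j ∈ Ico J N, 1 / (j : ℝ) ^ 2 ≤ 2 / (J : ℝ) := by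
  have hJ0 : (0 : ℝ) < J := by exact_mod_cast hJ
  have hJ1 : (1 : ℝ) ≤ J := by exact_mod_cast hJ
  have key : ∀ N, J ≤ N → ∑ j ∈ Ico J N, 1 / (j : ℝ) ^ 2 ≤ 1 / ((J : ℝ) - 1 / 2) - 1 / ((N : ℝ) - 1 / 2) := by
    intro N hN
    induction N, hN using Nat.le_induction with
    | base => simp
    | succ N hN ih =>
      rw [Finset.sum_Ico_succ_top hN]
      have hN1 : (1 : ℝ) ≤ N := by exact_mod_cast (hJ.trans hN)
      have h2 : 1 / (N : ℝ) ^ 2 ≤ 1 / ((N : ℝ) - 1 / 2) - 1 / (((N + 1 : ℕ) : ℝ) - 1 / 2) := by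
        push_cast
        rw [div_sub_div _ _ (by linarith) (by linarith), div_le_div_iff₀ (by positivity) (by nlinarith)]
        nlinarith
      linarith
  have h2 : 1 / ((J : ℝ) - 1 / 2) ≤ 2 / (J : ℝ) := by
    rw [div_le_div_iff₀ (by linarith) hJ0]; linarith
  rcases le_total J N with h | h
  · have h3 := key N h
    have hN1 : (1 : ℝ) ≤ N := by exact_mod_cast (hJ.trans h)
    have h4 : 0 ≤ 1 / ((N : ℝ) - 1 / 2) := div_nonneg zero_le_one (by linarith)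
    linarith
  · rw [Finset.Ico_eq_empty (by omega), Finset.sum_empty]; positivity

/-- the bound for one row -/
lemma row (K : ℕ) (σ v : ℝ) (U : Finset ℝ) (hK : 1 ≤ K) (hσ : 0 < σ) (hσ1 : σ ≤ 1)
    (hU : ∀ u ∈ U, v ≤ u ∧ u ≤ v + 2) (hsep : ∀ u ∈ U, ∀ u' ∈ U, u ≠ u' → σ ≤ |u - u'|) (u : ℝ) (hu : u ∈ U) :
    ∑ u' ∈ U, Fj (2 * K) (u - u') ≤ 40 * (K + 1 / σ) := by
  classical
  have hK0 : (0 : ℝ) < K := by exact_mod_cast hK
  have hpi := Real.pi_pos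
  have hpi3 := Real.pi_gt_three
  have hpi4 : Real.pi ^ 2 ≤ 10 := by nlinarith [Real.pi_lt_d2]
  set J : ℕ := ⌈1 / (K * σ)⌉₊ with hJ
  have hKσ : (0 : ℝ) < K * σ := by positivity
  have hJ1 : 1 ≤ J := by
    rw [hJ, Nat.one_le_ceil_iff]; positivity
  have hJle : (J : ℝ) ≤ 1 / (K * σ) + 1 := (Nat.ceil_lt_add_one (by positivity)).le
  have hJge : 1 / (K * σ) ≤ (J : ℝ) := Nat.le_ceil _
  have hJ0 : (0 : ℝ) < J := by exact_mod_cast hJ1
  set g : ℕ → ℝ := fun j => if j < J then 2 * (K : ℝ) else Real.pi ^ 2 / (2 * K * σ ^ 2) * (1 / (j : ℝ) ^ 2) with hg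
  have hg0 : ∀ j, 0 ≤ g j := by
    intro j; simp only [hg]; split_ifs <;> positivity
  have hfg : ∀ x : ℝ, |x| ≤ 2 → Fj (2 * K) x ≤ g ⌊|x| / σ⌋₊ := by
    intro x hx
    simp only [hg]
    split_ifs with h
    · have := Fj_le (2 * K) x; push_cast at this; exact this
    · have hj1 : 1 ≤ ⌊|x| / σ⌋₊ := by omega
      have hj0 : (0 : ℝ) < (⌊|x| / σ⌋₊ : ℕ) := by exact_mod_cast hj1
      have h1 : (⌊|x| / σ⌋₊ : ℝ) * σ ≤ |x| := by
        have := Nat.floor_le (div_nonneg (abs_nonneg x) hσ.le)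
        rwa [le_div_iff₀ hσ] at this
      have hx0 : 0 < |x| := lt_of_lt_of_le (by positivity) h1
      have h2 := Fj_le_sq (K := 2 * K) (by omega) (abs_pos.1 hx0) (hx.trans (by linarith))
      refine h2.trans ?_
      push_cast
      have e1 : Real.pi ^ 2 / (2 * K * σ ^ 2) * (1 / (⌊|x| / σ⌋₊ : ℝ) ^ 2) =
          Real.pi ^ 2 / (2 * K * ((⌊|x| / σ⌋₊ : ℝ) * σ) ^ 2) := by
        field_simp
      rw [e1, ← sq_abs x]
      gcongr
  have hgsum : ∀ N, ∑ j ∈ range N, g j ≤ 20 * (K + 1 / σ) := by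
    intro N
    have h1 : ∑ j ∈ range N, g j ≤ ∑ j ∈ range J, g j + ∑ j ∈ Ico J (max J N), g j := by
      rw [Finset.sum_range_add_sum_Ico _ (le_max_left J N)]
      exact Finset.sum_le_sum_of_subset_of_nonneg (Finset.range_mono (le_max_right J N)) (fun j _ _ => hg0 j)
    have h2 : ∑ j ∈ range J, g j = J * (2 * K) := by
      rw [Finset.sum_congr rfl (g := fun _ => 2 * (K : ℝ))]
      · simp
      · intro j hj
        simp only [hg]
        rw [if_pos (Finset.mem_range.1 hj)]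
    have h3 : ∑ j ∈ Ico J (max J N), g j ≤ Real.pi ^ 2 / (2 * K * σ ^ 2) * (2 / J) := by
      have e0 : ∑ j ∈ Ico J (max J N), g j =
          ∑ j ∈ Ico J (max J N), Real.pi ^ 2 / (2 * K * σ ^ 2) * (1 / (j : ℝ) ^ 2) := by
        refine Finset.sum_congr rfl fun j hj => ?_
        simp only [hg]
        rw [if_neg (by have := (Finset.mem_Ico.1 hj).1; omega)]
      rw [e0, ← Finset.mul_sum]
      have := tail_sq J (max J N) hJ1
      gcongr
    have h4 : (J : ℝ) * (2 * K) ≤ 2 * (K + 1 / σ) := by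
      calc (J : ℝ) * (2 * K) ≤ (1 / (K * σ) + 1) * (2 * K) := by gcongr
        _ = 2 * (K + 1 / σ) := by field_simp; ring
    have h5 : Real.pi ^ 2 / (2 * K * σ ^ 2) * (2 / J) ≤ 10 * (1 / σ) := by
      have h6 : 2 / (J : ℝ) ≤ 2 * (K * σ) := by
        rw [div_le_iff₀ hJ0]
        have : 1 ≤ (J : ℝ) * (K * σ) := by
          rw [div_le_iff₀ hKσ] at hJge; exact hJge
        nlinarith
      calc Real.pi ^ 2 / (2 * K * σ ^ 2) * (2 / J) ≤ Real.pi ^ 2 / (2 * K * σ ^ 2) * (2 * (K * σ)) := by gcongr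
        _ = Real.pi ^ 2 * (1 / σ) := by field_simp
        _ ≤ 10 * (1 / σ) := by gcongr
    have h7 : (0 : ℝ) < 1 / σ := by positivity
    rw [h2] at h1
    linarith
  -- split
  have hsplit : ∑ u' ∈ U, Fj (2 * K) (u - u') = ∑ u' ∈ U.filter (fun u' => u' ≤ u), Fj (2 * K) (u - u') +
      ∑ u' ∈ U.filter (fun u' => ¬ u' ≤ u), Fj (2 * K) (u - u') :=
    (Finset.sum_filter_add_sum_filter_not U (fun u' => u' ≤ u) _).symm
  have hA : ∑ u' ∈ U.filter (fun u' => u' ≤ u), Fj (2 * K) (u - u') ≤ 20 * (K + 1 / σ) := by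
    refine (sep_sum (B := 2) hσ _ (fun u' => u - u') _ g hg0 ?_ ?_ ?_).trans (hgsum _)
    · intro a ha
      have ha' := Finset.mem_filter.1 ha
      have h1 := hU a ha'.1
      have h2 := hU u hu
      exact ⟨by linarith [ha'.2], by linarith⟩
    · intro a ha b hb hab
      have h1 := hsep a (Finset.mem_filter.1 ha).1 b (Finset.mem_filter.1 hb).1 hab
      have : (u - a) - (u - b) = -(a - b) := by ring
      show σ ≤ |u - a - (u - b)|
      rw [this, abs_neg]; exact h1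
    · intro a ha
      have ha' := Finset.mem_filter.1 ha
      have h1 := hU a ha'.1
      have h2 := hU u hu
      have h3 : |u - a| = u - a := abs_of_nonneg (by linarith [ha'.2])
      have h4 := hfg (u - a) (by rw [h3]; linarith)
      rw [h3] at h4
      exact h4
  have hB : ∑ u' ∈ U.filter (fun u' => ¬ u' ≤ u), Fj (2 * K) (u - u') ≤ 20 * (K + 1 / σ) := by
    refine (sep_sum (B := 2) hσ _ (fun u' => u' - u) _ g hg0 ?_ ?_ ?_).trans (hgsum _)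
    · intro a ha
      have ha' := Finset.mem_filter.1 ha
      have h1 := hU a ha'.1
      have h2 := hU u hu
      exact ⟨by linarith [not_le.1 ha'.2], by linarith⟩
    · intro a ha b hb hab
      have h1 := hsep a (Finset.mem_filter.1 ha).1 b (Finset.mem_filter.1 hb).1 hab
      have : (a - u) - (b - u) = (a - b) := by ring
      show σ ≤ |a - u - (b - u)|
      rw [this]; exact h1
    · intro a ha
      have ha' := Finset.mem_filter.1 ha
      have h1 := hU a ha'.1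
      have h2 := hU u hu
      have h3 : |u - a| = a - u := by rw [abs_sub_comm]; exact abs_of_nonneg (by linarith [not_le.1 ha'.2])
      have h4 := hfg (u - a) (by rw [h3]; linarith)
      rw [h3] at h4
      exact h4
  rw [hsplit]
  linarith

/-- the character `e^{iku}` -/
noncomputable def ek (k : ℤ) (u : ℝ) : ℂ := Complex.exp (((k : ℝ) * u : ℝ) * Complex.I)

lemma ek_mul (k : ℤ) (u u' : ℝ) : ek k u * (starRingEnd ℂ) (ek k u') =
    Complex.exp (-((k * (u' - u) : ℝ) : ℂ) * Complex.I) := by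
  unfold ek
  rw [← Complex.exp_conj, ← Complex.exp_add]
  congr 1
  rw [map_mul, Complex.conj_I, Complex.conj_ofReal]
  push_cast
  ring

lemma Fj_even (K : ℕ) (u : ℝ) : Fj K (-u) = Fj K u := by
  unfold Fj
  refine Finset.sum_congr rfl fun k _ => ?_
  rw [mul_neg, Real.cos_neg]

/-- the dual statement -/
lemma dual (K : ℕ) (σ v : ℝ) (U : Finset ℝ) (hK : 1 ≤ K) (hσ : 0 < σ) (hσ1 : σ ≤ 1)
    (hU : ∀ u ∈ U, v ≤ u ∧ u ≤ v + 2) (hsep : ∀ u ∈ U, ∀ u' ∈ U, u ≠ u' → σ ≤ |u - u'|) (b : ℝ → ℂ) :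
    ∑ k ∈ FK K, ‖∑ u ∈ U, b u * ek k u‖ ^ 2 ≤ 80 * (K + 1 / σ) * ∑ u ∈ U, ‖b u‖ ^ 2 := by
  have hK0 : (0 : ℝ) < K := by exact_mod_cast hK
  have h1 : ∑ k ∈ FK K, ‖∑ u ∈ U, b u * ek k u‖ ^ 2 ≤
      2 * ∑ k ∈ FK (2 * K), (1 - |(k : ℝ)| / ((2 * K : ℕ) : ℝ)) * ‖∑ u ∈ U, b u * ek k u‖ ^ 2 := by
    rw [Finset.mul_sum]
    have hsub : FK K ⊆ FK (2 * K) := by
      intro k hk
      simp only [FK, Finset.mem_Ioo] at hk ⊢
      push_cast
      omega
    refine le_trans ?_ (Finset.sum_le_sum_of_subset_of_nonneg hsub ?_)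
    · refine Finset.sum_le_sum fun k hk => ?_
      simp only [FK, Finset.mem_Ioo] at hk
      have hk1 : |(k : ℝ)| ≤ K := by
        rw [abs_le]
        have h1 : -(K : ℝ) < k := by exact_mod_cast hk.1
        have h2 : (k : ℝ) < K := by exact_mod_cast hk.2
        exact ⟨h1.le, h2.le⟩
      have h2 : |(k : ℝ)| / ((2 * K : ℕ) : ℝ) ≤ 1 / 2 := by
        push_cast
        rw [div_le_div_iff₀ (by positivity) (by norm_num)]
        linarith
      nlinarith [sq_nonneg ‖∑ u ∈ U, b u * ek k u‖]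
    · intro k hk _
      simp only [FK, Finset.mem_Ioo] at hk
      have hk1 : |(k : ℝ)| ≤ ((2 * K : ℕ) : ℝ) := by
        rw [abs_le]
        have h1 : -((2 * K : ℕ) : ℝ) < k := by exact_mod_cast hk.1
        have h2 : (k : ℝ) < ((2 * K : ℕ) : ℝ) := by exact_mod_cast hk.2
        exact ⟨h1.le, h2.le⟩
      have h2 : |(k : ℝ)| / ((2 * K : ℕ) : ℝ) ≤ 1 := div_le_one_of_le₀ hk1 (by positivity)
      have h3 : 0 ≤ 1 - |(k : ℝ)| / ((2 * K : ℕ) : ℝ) := by linarith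
      positivity
  have h2 : ((∑ k ∈ FK (2 * K), (1 - |(k : ℝ)| / ((2 * K : ℕ) : ℝ)) * ‖∑ u ∈ U, b u * ek k u‖ ^ 2 : ℝ) : ℂ) =
      ∑ u ∈ U, ∑ u' ∈ U, b u * (starRingEnd ℂ) (b u') * (Fj (2 * K) (u' - u) : ℂ) := by
    rw [Complex.ofReal_sum]
    have h3 : ∀ k ∈ FK (2 * K), (((1 - |(k : ℝ)| / ((2 * K : ℕ) : ℝ)) * ‖∑ u ∈ U, b u * ek k u‖ ^ 2 : ℝ) : ℂ) =
        ∑ u ∈ U, ∑ u' ∈ U, b u * (starRingEnd ℂ) (b u') * (((1 - |(k : ℝ)| / ((2 * K : ℕ) : ℝ) : ℝ) : ℂ) *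
          Complex.exp (-((k * (u' - u) : ℝ) : ℂ) * Complex.I)) := by
      intro k _
      have h4 : (((‖∑ u ∈ U, b u * ek k u‖ ^ 2 : ℝ)) : ℂ) =
          (∑ u ∈ U, b u * ek k u) * (starRingEnd ℂ) (∑ u ∈ U, b u * ek k u) := by
        rw [Complex.mul_conj, Complex.normSq_eq_norm_sq]
      rw [Complex.ofReal_mul, h4, map_sum, Finset.sum_mul_sum, Finset.mul_sum]
      refine Finset.sum_congr rfl fun u _ => ?_
      rw [Finset.mul_sum]
      refine Finset.sum_congr rfl fun u' _ => ?_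
      rw [← ek_mul, map_mul]
      ring
    rw [Finset.sum_congr rfl h3, Finset.sum_comm]
    refine Finset.sum_congr rfl fun u _ => ?_
    rw [Finset.sum_comm]
    refine Finset.sum_congr rfl fun u' _ => ?_
    rw [← Finset.mul_sum, fej_exp]
  have h3 : ∑ k ∈ FK (2 * K), (1 - |(k : ℝ)| / ((2 * K : ℕ) : ℝ)) * ‖∑ u ∈ U, b u * ek k u‖ ^ 2 ≤
      ∑ u ∈ U, ∑ u' ∈ U, (‖b u‖ ^ 2 + ‖b u'‖ ^ 2) / 2 * Fj (2 * K) (u' - u) := by
    have h4 : ∑ k ∈ FK (2 * K), (1 - |(k : ℝ)| / ((2 * K : ℕ) : ℝ)) * ‖∑ u ∈ U, b u * ek k u‖ ^ 2 ≤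
        ‖∑ u ∈ U, ∑ u' ∈ U, b u * (starRingEnd ℂ) (b u') * (Fj (2 * K) (u' - u) : ℂ)‖ := by
      rw [← h2, Complex.norm_real]
      exact le_abs_self _
    refine h4.trans ((norm_sum_le _ _).trans (Finset.sum_le_sum fun u _ => (norm_sum_le _ _).trans
      (Finset.sum_le_sum fun u' _ => ?_)))
    rw [norm_mul, norm_mul, RCLike.norm_conj, Complex.norm_real, Real.norm_eq_abs, abs_of_nonneg (Fj_nonneg _ _)]
    refine mul_le_mul_of_nonneg_right ?_ (Fj_nonneg _ _)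
    nlinarith [sq_nonneg (‖b u‖ - ‖b u'‖)]
  have h4 : ∑ u ∈ U, ∑ u' ∈ U, (‖b u‖ ^ 2 + ‖b u'‖ ^ 2) / 2 * Fj (2 * K) (u' - u) =
      ∑ u ∈ U, ‖b u‖ ^ 2 * ∑ u' ∈ U, Fj (2 * K) (u - u') := by
    have e1 : ∑ u ∈ U, ∑ u' ∈ U, ‖b u‖ ^ 2 / 2 * Fj (2 * K) (u' - u) =
        ∑ u ∈ U, ‖b u‖ ^ 2 / 2 * ∑ u' ∈ U, Fj (2 * K) (u - u') := by
      refine Finset.sum_congr rfl fun u _ => ?_
      rw [Finset.mul_sum]
      refine Finset.sum_congr rfl fun u' _ => ?_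
      rw [← Fj_even, neg_sub]
    have e2 : ∑ u ∈ U, ∑ u' ∈ U, ‖b u'‖ ^ 2 / 2 * Fj (2 * K) (u' - u) =
        ∑ u ∈ U, ‖b u‖ ^ 2 / 2 * ∑ u' ∈ U, Fj (2 * K) (u - u') := by
      rw [Finset.sum_comm]
      refine Finset.sum_congr rfl fun u _ => ?_
      rw [Finset.mul_sum]
    calc ∑ u ∈ U, ∑ u' ∈ U, (‖b u‖ ^ 2 + ‖b u'‖ ^ 2) / 2 * Fj (2 * K) (u' - u)
        = ∑ u ∈ U, ∑ u' ∈ U, (‖b u‖ ^ 2 / 2 * Fj (2 * K) (u' - u) + ‖b u'‖ ^ 2 / 2 * Fj (2 * K) (u' - u)) := by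
          refine Finset.sum_congr rfl fun u _ => Finset.sum_congr rfl fun u' _ => ?_
          ring
      _ = _ := by
          simp only [Finset.sum_add_distrib]
          rw [e1, e2, ← Finset.sum_add_distrib]
          refine Finset.sum_congr rfl fun u _ => ?_
          ring
  have h5 : ∑ u ∈ U, ‖b u‖ ^ 2 * ∑ u' ∈ U, Fj (2 * K) (u - u') ≤ 40 * (K + 1 / σ) * ∑ u ∈ U, ‖b u‖ ^ 2 := by
    rw [Finset.mul_sum]
    refine Finset.sum_le_sum fun u hu => ?_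
    rw [mul_comm]
    exact mul_le_mul_of_nonneg_right (row K σ v U hK hσ hσ1 hU hsep u hu) (by positivity)
  rw [h4] at h3
  linarith

theorem lsd : S_LSD := by
  refine ⟨80, by norm_num, ?_⟩
  intro K σ v U c hK hσ hσ1 hU hsep
  have hK0 : (0 : ℝ) < K := by exact_mod_cast hK
  set S : ℝ → ℂ := fun u => ∑ k ∈ FK K, c k * ek k u with hS
  have hgoal : ∀ u, ∑ k ∈ FK K, c k * Complex.exp (((k : ℝ) * u : ℝ) * Complex.I) = S u := fun u => rfl
  simp only [hgoal]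
  set A : ℝ := 80 * (K + 1 / σ) with hA
  have hA0 : 0 ≤ A := by positivity
  set X : ℝ := ∑ u ∈ U, ‖S u‖ ^ 2 with hX
  have hX0 : 0 ≤ X := Finset.sum_nonneg fun u _ => by positivity
  set G : ℝ := ∑ k ∈ FK K, ‖c k‖ ^ 2 with hG
  have hG0 : 0 ≤ G := Finset.sum_nonneg fun u _ => by positivity
  have hd := dual K σ v U hK hσ hσ1 hU hsep (fun u => (starRingEnd ℂ) (S u))
  have hd2 : ∑ u ∈ U, ‖(starRingEnd ℂ) (S u)‖ ^ 2 = X := by
    refine Finset.sum_congr rfl fun u _ => ?_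
    rw [RCLike.norm_conj]
  rw [hd2] at hd
  have h1 : (X : ℂ) = ∑ k ∈ FK K, c k * ∑ u ∈ U, (starRingEnd ℂ) (S u) * ek k u := by
    rw [hX, Complex.ofReal_sum]
    have h2 : ∀ u ∈ U, ((‖S u‖ ^ 2 : ℝ) : ℂ) = ∑ k ∈ FK K, c k * ((starRingEnd ℂ) (S u) * ek k u) := by
      intro u _
      have h3 : ((‖S u‖ ^ 2 : ℝ) : ℂ) = S u * (starRingEnd ℂ) (S u) := by
        rw [Complex.mul_conj, Complex.normSq_eq_norm_sq]
      rw [h3]
      conv_lhs => rw [hS]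
      simp only
      rw [Finset.sum_mul]
      refine Finset.sum_congr rfl fun k _ => ?_
      ring
    rw [Finset.sum_congr rfl h2, Finset.sum_comm]
    refine Finset.sum_congr rfl fun k _ => ?_
    rw [Finset.mul_sum]
  have h2 : X ≤ ∑ k ∈ FK K, ‖c k‖ * ‖∑ u ∈ U, (starRingEnd ℂ) (S u) * ek k u‖ := by
    have h3 : X = ‖(X : ℂ)‖ := by rw [Complex.norm_real, Real.norm_eq_abs, abs_of_nonneg hX0]
    rw [h3, h1]
    refine (norm_sum_le _ _).trans (Finset.sum_le_sum fun k _ => ?_)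
    rw [norm_mul]
  have h3 : (∑ k ∈ FK K, ‖c k‖ * ‖∑ u ∈ U, (starRingEnd ℂ) (S u) * ek k u‖) ^ 2 ≤ G * (A * X) := by
    refine (Finset.sum_mul_sq_le_sq_mul_sq _ _ _).trans ?_
    exact mul_le_mul_of_nonneg_left hd hG0
  have h4 : X ^ 2 ≤ G * (A * X) := (pow_le_pow_left₀ hX0 h2 2).trans h3
  rcases eq_or_lt_of_le hX0 with h | h
  · rw [← h]; positivity
  · have h5 : X * X ≤ (A * G) * X := by nlinarith
    exact le_of_mul_le_mul_right h5 h

end Pool.Agent.Q257.KS
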