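import Pool.Agent.Q240.KS.Stm1
import Pool.Agent.H376R2.MR.Fej

/-! # KS-FJL (helper257, for helper240): lower bound of the Fejer kernel -/

set_option autoImplicit false

namespace Pool.Agent.Q257.KS
open Finset Pool.Agent.Q240.KS Pool.Agent.H376R2.MR

theorem fjl : S_FJL := by
  intro K u hK hu
  have hK0 : (0 : ℝ) < K := by exact_mod_cast hK
  have hpi := Real.pi_pos
  have hpi3 := Real.pi_gt_three
  have h0 : 4 / Real.pi ^ 2 * K * K ≤ (K : ℝ) * Fj K u := by
    rw [fej_eq_norm]
    by_cases hz : u = 0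
    · subst hz
      have h1 : ‖∑ j ∈ range K, Complex.exp (Complex.I * (0 : ℝ)) ^ j‖ = K := by
        simp
      rw [h1]
      have h2 : 4 / Real.pi ^ 2 ≤ 1 := by
        rw [div_le_one (by positivity)]
        nlinarith
      nlinarith [mul_pos hK0 hK0]
    · have hu0 : 0 < |u| := abs_pos.2 hz
      set D := ∑ j ∈ range K, Complex.exp (Complex.I * u) ^ j with hD
      have h1 : D * (Complex.exp (Complex.I * u) - 1) = Complex.exp (Complex.I * u) ^ K - 1 :=
        geom_sum_mul _ _
      have h2 : ‖Complex.exp (Complex.I * u) - 1‖ ≤ |u| := by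
        rw [Complex.norm_exp_I_mul_ofReal_sub_one, Real.norm_eq_abs, abs_mul,
          abs_of_pos (by norm_num : (0 : ℝ) < 2)]
        have := Real.abs_sin_le_abs (x := u / 2)
        rw [abs_div, abs_of_pos (by norm_num : (0 : ℝ) < 2)] at this
        linarith
      have h3 : Complex.exp (Complex.I * u) ^ K = Complex.exp (Complex.I * ((K * u : ℝ) : ℂ)) := by
        rw [← Complex.exp_nat_mul]
        congr 1
        push_cast
        ring
      have h4 : 2 * (K * |u|) / Real.pi ≤ ‖Complex.exp (Complex.I * u) ^ K - 1‖ := by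
        rw [h3, Complex.norm_exp_I_mul_ofReal_sub_one, Real.norm_eq_abs, abs_mul,
          abs_of_pos (by norm_num : (0 : ℝ) < 2)]
        have hKu : |(K : ℝ) * u / 2| = K * |u| / 2 := by
          rw [abs_div, abs_mul, abs_of_pos hK0, abs_of_pos (by norm_num : (0 : ℝ) < 2)]
        have h5 : 2 / Real.pi * |(K : ℝ) * u / 2| ≤ |Real.sin (K * u / 2)| := by
          apply Real.mul_abs_le_abs_sin
          rw [hKu]
          have : (K : ℝ) * |u| ≤ 1 := by
            calc (K : ℝ) * |u| ≤ K * (1 / K) := by gcongr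
              _ = 1 := by field_simp
          linarith
        rw [hKu] at h5
        have h6 : 2 * (K * |u|) / Real.pi = 2 * (2 / Real.pi * (K * |u| / 2)) := by
          field_simp
        rw [h6]
        linarith
      have h5 : 2 * K / Real.pi ≤ ‖D‖ := by
        have h6 : 2 * (K * |u|) / Real.pi ≤ ‖D‖ * |u| := by
          calc _ ≤ ‖Complex.exp (Complex.I * u) ^ K - 1‖ := h4
            _ = ‖D‖ * ‖Complex.exp (Complex.I * u) - 1‖ := by rw [← norm_mul, h1]
            _ ≤ ‖D‖ * |u| := by gcongr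
        have h7 : 2 * (K * |u|) / Real.pi = 2 * K / Real.pi * |u| := by ring
        rw [h7] at h6
        exact le_of_mul_le_mul_right h6 hu0
      calc 4 / Real.pi ^ 2 * K * K = (2 * K / Real.pi) ^ 2 := by ring
        _ ≤ ‖D‖ ^ 2 := by gcongr
  have h1 : (K : ℝ) * (4 / Real.pi ^ 2 * K) ≤ K * Fj K u := by
    calc (K : ℝ) * (4 / Real.pi ^ 2 * K) = 4 / Real.pi ^ 2 * K * K := by ring
      _ ≤ _ := h0
  exact le_of_mul_le_mul_left h1 hK0

end Pool.Agent.Q257.KS
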