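import Pool.Agent.Q257.KS.FEb

/-! # KS-FE (helper257, for helper240): a poor interval gives a large exponential sum -/

set_option autoImplicit false

namespace Pool.Agent.Q257.KS
open Finset Pool.Agent.Q240.KS Pool.Agent.H376R2.MR Filter

lemma le_SL {v t : ℝ} (B : Finset ℕ) (hB : ∀ n ∈ B, 1 ≤ n ∧ v ≤ Real.log n ∧ Real.log n ≤ v + t) :
    ∑ n ∈ B, ArithmeticFunction.vonMangoldt n / n ≤ SL v t := by
  unfold SL
  refine Finset.sum_le_sum_of_subset_of_nonneg (fun n hn => ?_) (fun n _ _ => ?_)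
  · obtain ⟨h1, h2, h3⟩ := hB n hn
    have hn0 : (0 : ℝ) < n := by exact_mod_cast h1
    refine Finset.mem_filter.2 ⟨Finset.mem_Icc.2 ⟨h1, Nat.le_floor ?_⟩, h2⟩
    rw [← Real.log_le_iff_le_exp hn0]; exact h3
  · exact div_nonneg ArithmeticFunction.vonMangoldt_nonneg (Nat.cast_nonneg _)

/-- the right hand side -/
lemma right_side {Y u₀ y h CB : ℝ} (hCB : 0 ≤ CB) (K J : ℕ) (hK : 100 ≤ K) (hJ : 1 ≤ J)
    (hbt : ∀ v : ℝ, |v - Y| ≤ 1 → SL v (1 / K) ≤ CB / K) (hu : |u₀ - Y| ≤ 0.41)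
    (hlow : ∀ n : ℕ, y + h < n → (J : ℝ) / K ≤ Real.log n - u₀) :
    ∑ n ∈ ((sY Y).filter (fun n : ℕ => |Real.log n - Y| ≤ 1 / 2)).filter (fun n : ℕ => y + h < n),
      ArithmeticFunction.vonMangoldt n / n * Fj K (Real.log n - u₀) ≤ 20 * CB / J := by
  have hK1 : 1 ≤ K := by omega
  have hK0 : (0 : ℝ) < K := by exact_mod_cast hK1
  have hK100 : (100 : ℝ) ≤ K := by exact_mod_cast hK
  obtain ⟨hu1, hu2⟩ := abs_le.1 hu
  refine side hK1 hJ _ (fun n : ℕ => Real.log n - u₀)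
    (fun n : ℕ => ArithmeticFunction.vonMangoldt n / n) CB hCB ?_ ?_ ?_ ?_
  · intro n _
    exact div_nonneg ArithmeticFunction.vonMangoldt_nonneg (Nat.cast_nonneg _)
  · intro n hn
    exact hlow n (Finset.mem_filter.1 hn).2
  · intro n hn
    have h1 := (Finset.mem_filter.1 (Finset.mem_filter.1 hn).1).2
    have h2 := (abs_le.1 h1).2
    show Real.log n - u₀ ≤ 1
    linarith
  · intro j
    set B := (((sY Y).filter (fun n : ℕ => |Real.log n - Y| ≤ 1 / 2)).filter (fun n : ℕ => y + h < n)).filter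
      (fun n : ℕ => ⌊(K : ℝ) * (Real.log n - u₀)⌋₊ = j) with hB
    rcases B.eq_empty_or_nonempty with h0 | ⟨n₀, hn₀⟩
    · rw [h0]; simp only [Finset.sum_empty]; positivity
    have hprop : ∀ n ∈ B, 1 ≤ n ∧ u₀ + j / K ≤ Real.log n ∧ Real.log n ≤ (u₀ + j / K) + 1 / K := by
      intro n hn
      obtain ⟨hn1, hn2⟩ := Finset.mem_filter.1 hn
      obtain ⟨hn3, hn4⟩ := Finset.mem_filter.1 hn1
      obtain ⟨hn5, hn6⟩ := Finset.mem_filter.1 hn3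
      have hx : 0 < Real.log n - u₀ := lt_of_lt_of_le (by positivity) (hlow n hn4)
      have e1 := Nat.floor_le (mul_nonneg hK0.le hx.le)
      have e2 := Nat.lt_floor_add_one ((K : ℝ) * (Real.log n - u₀))
      rw [hn2] at e1 e2
      refine ⟨sY_mem hn5, ?_, ?_⟩
      · have : (j : ℝ) / K ≤ Real.log n - u₀ := by rw [div_le_iff₀ hK0]; linarith
        linarith
      · have : Real.log n - u₀ ≤ ((j : ℝ) + 1) / K := by rw [le_div_iff₀ hK0]; linarith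
        rw [add_div] at this
        linarith
    have hv : |u₀ + j / K - Y| ≤ 1 := by
      have h1 := hprop n₀ hn₀
      have h2 := (abs_le.1 (Finset.mem_filter.1 (Finset.mem_filter.1 (Finset.mem_filter.1 hn₀).1).1).2)
      have h3 : (0 : ℝ) ≤ j / K := by positivity
      rw [abs_le]; constructor <;> linarith [h1.2.1, h2.2]
    exact (le_SL B hprop).trans (hbt _ hv)

/-- the left hand side -/
lemma left_side {Y u₀ y CB : ℝ} (hCB : 0 ≤ CB) (K J : ℕ) (hK : 100 ≤ K) (hJ : 1 ≤ J)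
    (hbt : ∀ v : ℝ, |v - Y| ≤ 1 → SL v (1 / K) ≤ CB / K) (hu : |u₀ - Y| ≤ 0.41)
    (hlow : ∀ n : ℕ, 1 ≤ n → (n : ℝ) ≤ y → (J : ℝ) / K ≤ u₀ - Real.log n) :
    ∑ n ∈ ((sY Y).filter (fun n : ℕ => |Real.log n - Y| ≤ 1 / 2)).filter (fun n : ℕ => (n : ℝ) ≤ y),
      ArithmeticFunction.vonMangoldt n / n * Fj K (Real.log n - u₀) ≤ 20 * CB / J := by
  have hK1 : 1 ≤ K := by omega
  have hK0 : (0 : ℝ) < K := by exact_mod_cast hK1
  have hK100 : (100 : ℝ) ≤ K := by exact_mod_cast hK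
  obtain ⟨hu1, hu2⟩ := abs_le.1 hu
  have hev : ∀ n : ℕ, Fj K (Real.log n - u₀) = Fj K (u₀ - Real.log n) := by
    intro n
    rw [← Fj_even]; congr 1; ring
  simp only [hev]
  refine side hK1 hJ _ (fun n : ℕ => u₀ - Real.log n)
    (fun n : ℕ => ArithmeticFunction.vonMangoldt n / n) CB hCB ?_ ?_ ?_ ?_
  · intro n _
    exact div_nonneg ArithmeticFunction.vonMangoldt_nonneg (Nat.cast_nonneg _)
  · intro n hn
    exact hlow n (sY_mem (Finset.mem_filter.1 (Finset.mem_filter.1 hn).1).1) (Finset.mem_filter.1 hn).2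
  · intro n hn
    have h1 := (Finset.mem_filter.1 (Finset.mem_filter.1 hn).1).2
    have h2 := (abs_le.1 h1).1
    show u₀ - Real.log n ≤ 1
    linarith
  · intro j
    set B := (((sY Y).filter (fun n : ℕ => |Real.log n - Y| ≤ 1 / 2)).filter (fun n : ℕ => (n : ℝ) ≤ y)).filter
      (fun n : ℕ => ⌊(K : ℝ) * (u₀ - Real.log n)⌋₊ = j) with hB
    rcases B.eq_empty_or_nonempty with h0 | ⟨n₀, hn₀⟩
    · rw [h0]; simp only [Finset.sum_empty]; positivity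
    have hprop : ∀ n ∈ B, 1 ≤ n ∧ u₀ - (j + 1) / K ≤ Real.log n ∧ Real.log n ≤ (u₀ - (j + 1) / K) + 1 / K := by
      intro n hn
      obtain ⟨hn1, hn2⟩ := Finset.mem_filter.1 hn
      obtain ⟨hn3, hn4⟩ := Finset.mem_filter.1 hn1
      obtain ⟨hn5, hn6⟩ := Finset.mem_filter.1 hn3
      have hx : 0 < u₀ - Real.log n := lt_of_lt_of_le (by positivity) (hlow n (sY_mem hn5) hn4)
      have e1 := Nat.floor_le (mul_nonneg hK0.le hx.le)
      have e2 := Nat.lt_floor_add_one ((K : ℝ) * (u₀ - Real.log n))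
      rw [hn2] at e1 e2
      refine ⟨sY_mem hn5, ?_, ?_⟩
      · have : u₀ - Real.log n ≤ ((j : ℝ) + 1) / K := by rw [le_div_iff₀ hK0]; linarith
        linarith
      · have : (j : ℝ) / K ≤ u₀ - Real.log n := by rw [div_le_iff₀ hK0]; linarith
        rw [add_div]
        linarith
    have hv : |u₀ - (j + 1) / K - Y| ≤ 1 := by
      have h1 := hprop n₀ hn₀
      have h2 := (abs_le.1 (Finset.mem_filter.1 (Finset.mem_filter.1 (Finset.mem_filter.1 hn₀).1).1).2)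
      have h3 : (1 : ℝ) / K ≤ 1 / 100 := by gcongr
      rw [abs_le]; constructor <;> linarith [h1.2.1, h1.2.2, h2.1, h2.2]
    exact (le_SL B hprop).trans (hbt _ hv)

lemma FF_split (Y u₀ : ℝ) (a : ℕ → ℝ)
    (ha1 : ∀ n : ℕ, 1 ≤ n → |Real.log n - Y| ≤ 1 / 2 → a n = ArithmeticFunction.vonMangoldt n / n) (K' : ℕ) :
    FF Y u₀ a K' =
      ∑ n ∈ (sY Y).filter (fun n : ℕ => |Real.log n - Y| ≤ 1 / 2),
        ArithmeticFunction.vonMangoldt n / n * Fj K' (Real.log n - u₀) +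
      ∑ n ∈ (sY Y).filter (fun n : ℕ => ¬ |Real.log n - Y| ≤ 1 / 2), a n * Fj K' (Real.log n - u₀) := by
  have h1 : FF Y u₀ a K' =
      ∑ n ∈ (sY Y).filter (fun n : ℕ => |Real.log n - Y| ≤ 1 / 2), a n * Fj K' (Real.log n - u₀) +
      ∑ n ∈ (sY Y).filter (fun n : ℕ => ¬ |Real.log n - Y| ≤ 1 / 2), a n * Fj K' (Real.log n - u₀) := by
    unfold FF
    exact (Finset.sum_filter_add_sum_filter_not _ _ _).symm
  rw [h1]
  congr 1
  refine Finset.sum_congr rfl fun n hn => ?_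
  obtain ⟨hn1, hn2⟩ := Finset.mem_filter.1 hn
  rw [ha1 n (sY_mem hn1) hn2]

lemma term_nonneg (u₀ : ℝ) (K' n : ℕ) :
    0 ≤ ArithmeticFunction.vonMangoldt n / n * Fj K' (Real.log n - u₀) :=
  mul_nonneg (div_nonneg ArithmeticFunction.vonMangoldt_nonneg (Nat.cast_nonneg _)) (Fj_nonneg _ _)

/-- part (a) -/
lemma feA (hFJL : S_FJL) {Y u₀ E c₅ cH : ℝ} {a : ℕ → ℝ} (K₁ : ℕ) (hK₁ : 100 ≤ K₁) (hY0 : 0 ≤ Y) (hE0 : 0 ≤ E)
    (ha1 : ∀ n : ℕ, 1 ≤ n → |Real.log n - Y| ≤ 1 / 2 → a n = ArithmeticFunction.vonMangoldt n / n)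
    (ha2 : ∀ n : ℕ, 1 ≤ n → |a n| ≤ E / n)
    (ha3 : ∀ n : ℕ, 1 ≤ n → 3 / 2 < |Real.log n - Y| → a n = 0)
    (hu : |u₀ - Y| ≤ 0.405) (hcH : 0 < cH) (hc₅ : c₅ = cH / 4) (hS : cH * (1 / K₁) ≤ SL u₀ (1 / K₁))
    (hout : E * (Y + 3) * (1300 / (K₁ : ℝ)) ≤ c₅ / 10) : c₅ ≤ FF Y u₀ a K₁ := by
  have hK₁100' : (100 : ℝ) ≤ K₁ := by exact_mod_cast hK₁
  have hK₁0 : (0 : ℝ) < K₁ := by linarith
  have hc₅0 : 0 < c₅ := by rw [hc₅]; positivity
  have hpi4 : Real.pi ^ 2 ≤ 10 := by nlinarith [Real.pi_lt_d2, Real.pi_gt_three]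
  have hpi := Real.pi_pos
  obtain ⟨hua, hub⟩ := abs_le.1 hu
  rw [FF_split Y u₀ a ha1]
  have h1 := outer hY0 hE0 ha2 ha3 (hu.trans (by norm_num)) K₁ (by omega)
  have h2 := (abs_le.1 (h1.trans hout)).1
  have hK₁inv : (1 : ℝ) / K₁ ≤ 1 / 100 := by gcongr
  have hsub : (Icc 1 ⌊Real.exp (u₀ + 1 / K₁)⌋₊).filter (fun n : ℕ => u₀ ≤ Real.log n) ⊆
      (sY Y).filter (fun n : ℕ => |Real.log n - Y| ≤ 1 / 2) := by
    intro n hn
    obtain ⟨hn1, hn2⟩ := Finset.mem_filter.1 hn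
    obtain ⟨hn3, hn4⟩ := Finset.mem_Icc.1 hn1
    have hn0 : (0 : ℝ) < n := by exact_mod_cast hn3
    have hn5 : (n : ℝ) ≤ Real.exp (u₀ + 1 / K₁) := (Nat.le_floor_iff (Real.exp_pos _).le).1 hn4
    have hn6 : Real.log n ≤ u₀ + 1 / K₁ := by
      rw [Real.log_le_iff_le_exp hn0]; exact hn5
    refine Finset.mem_filter.2 ⟨Finset.mem_Icc.2 ⟨hn3, Nat.le_floor ?_⟩, ?_⟩
    · rw [← Real.log_le_iff_le_exp hn0]; linarith
    · rw [abs_le]; constructor <;> linarith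
  have h3 : ∑ n ∈ (Icc 1 ⌊Real.exp (u₀ + 1 / K₁)⌋₊).filter (fun n : ℕ => u₀ ≤ Real.log n),
      ArithmeticFunction.vonMangoldt n / n * Fj K₁ (Real.log n - u₀) ≤
      ∑ n ∈ (sY Y).filter (fun n : ℕ => |Real.log n - Y| ≤ 1 / 2),
      ArithmeticFunction.vonMangoldt n / n * Fj K₁ (Real.log n - u₀) :=
    Finset.sum_le_sum_of_subset_of_nonneg hsub (fun n _ _ => term_nonneg u₀ K₁ n)
  have h4 : 4 / Real.pi ^ 2 * K₁ * SL u₀ (1 / K₁) ≤
      ∑ n ∈ (Icc 1 ⌊Real.exp (u₀ + 1 / K₁)⌋₊).filter (fun n : ℕ => u₀ ≤ Real.log n),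
      ArithmeticFunction.vonMangoldt n / n * Fj K₁ (Real.log n - u₀) := by
    unfold SL
    rw [Finset.mul_sum]
    refine Finset.sum_le_sum fun n hn => ?_
    obtain ⟨hn1, hn2⟩ := Finset.mem_filter.1 hn
    obtain ⟨hn3, hn4⟩ := Finset.mem_Icc.1 hn1
    have hn0 : (0 : ℝ) < n := by exact_mod_cast hn3
    have hn5 : (n : ℝ) ≤ Real.exp (u₀ + 1 / K₁) := (Nat.le_floor_iff (Real.exp_pos _).le).1 hn4
    have hn6 : Real.log n ≤ u₀ + 1 / K₁ := by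
      rw [Real.log_le_iff_le_exp hn0]; exact hn5
    have h5 := hFJL K₁ (Real.log n - u₀) (by omega) (by
      rw [abs_of_nonneg (by linarith)]; linarith)
    rw [mul_comm]
    exact mul_le_mul_of_nonneg_left h5 (div_nonneg ArithmeticFunction.vonMangoldt_nonneg (Nat.cast_nonneg _))
  have h5 : 4 / Real.pi ^ 2 * cH ≤ 4 / Real.pi ^ 2 * K₁ * SL u₀ (1 / K₁) := by
    calc 4 / Real.pi ^ 2 * cH = 4 / Real.pi ^ 2 * K₁ * (cH * (1 / K₁)) := by field_simp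
      _ ≤ _ := by gcongr
  have h6 : 0.4 ≤ 4 / Real.pi ^ 2 := by
    rw [le_div_iff₀ (by positivity)]; linarith
  have h7 : 1.6 * c₅ ≤ 4 / Real.pi ^ 2 * cH := by
    have e1 : 1.6 * c₅ = 0.4 * cH := by rw [hc₅]; ring
    rw [e1]
    exact mul_le_mul_of_nonneg_right h6 hcH.le
  linarith only [h2, h3, h4, h5, h7, hc₅0]

/-- the terms with `y < n ≤ y + h` -/
lemma feM {Y y h c c₅ L₀ u₀ : ℝ} {K : ℕ} (hY20 : 20 ≤ Y) (hy : 0 < y) (hh0 : 0 < h) (hL₀ : 0 < L₀)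
    (hc : c = c₅ / (64 * L₀)) (hc₅0 : 0 < c₅) (hK0 : (0 : ℝ) < K)
    (hy1' : Real.exp Y ≤ 3 / 2 * y) (hyh : y + h ≤ 5 / 2 * Real.exp Y)
    (hpic : (pic y h : ℝ) < c * h / Y) (hKhi : (K : ℝ) ≤ 2 * L₀ * Real.exp Y / h)
    (hV5 : (16 * L₀) * (Y + 3) ^ 2 * Real.exp (-((1 / 2) * Y)) ≤ c₅ / 32)
    (hV5' : (8 * L₀) * (Y + 3) ^ 2 * (1 / h) ≤ c₅ / 32) :
    ∑ n ∈ (((sY Y).filter (fun n : ℕ => |Real.log n - Y| ≤ 1 / 2)).filter (fun n : ℕ => ¬ (n : ℝ) ≤ y)).filter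
        (fun n : ℕ => ¬ y + h < n), ArithmeticFunction.vonMangoldt n / n * Fj K (Real.log n - u₀) ≤ c₅ / 8 := by
  have hc0 : 0 < c := by rw [hc]; positivity
  have heY : 0 < Real.exp Y := Real.exp_pos Y
  have e1 : ∑ n ∈ (((sY Y).filter (fun n : ℕ => |Real.log n - Y| ≤ 1 / 2)).filter (fun n : ℕ => ¬ (n : ℝ) ≤ y)).filter
      (fun n : ℕ => ¬ y + h < n), ArithmeticFunction.vonMangoldt n / n * Fj K (Real.log n - u₀) ≤
      K * ∑ n ∈ Ioc ⌊y⌋₊ ⌊y + h⌋₊, ArithmeticFunction.vonMangoldt n / n := by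
    rw [Finset.mul_sum]
    refine (Finset.sum_le_sum (g := fun n : ℕ => (K : ℝ) * (ArithmeticFunction.vonMangoldt n / n)) ?_).trans
      (Finset.sum_le_sum_of_subset_of_nonneg ?_ ?_)
    · intro n _
      rw [mul_comm]
      exact mul_le_mul_of_nonneg_right (Fj_le K _)
        (div_nonneg ArithmeticFunction.vonMangoldt_nonneg (Nat.cast_nonneg _))
    · intro n hn
      obtain ⟨hn1, hn2⟩ := Finset.mem_filter.1 hn
      obtain ⟨hn3, hn4⟩ := Finset.mem_filter.1 hn1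
      rw [not_lt] at hn2
      rw [not_le] at hn4
      exact Finset.mem_Ioc.2 ⟨(Nat.floor_lt hy.le).2 hn4, Nat.le_floor hn2⟩
    · intro n _ _
      exact mul_nonneg hK0.le (div_nonneg ArithmeticFunction.vonMangoldt_nonneg (Nat.cast_nonneg _))
  have hyhe : y + h ≤ Real.exp (Y + 1) := by
    rw [Real.exp_add]
    have : (2.7 : ℝ) ≤ Real.exp 1 := by linarith [Real.exp_one_gt_d9]
    nlinarith only [this, heY, hyh]
  have e2 := middle (by linarith only [hY20] : (1 : ℝ) ≤ Y) hy hh0.le hyhe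
  have hsq : Real.exp (1 / 2 * Y) / 2 ≤ Real.sqrt y := by
    apply Real.le_sqrt_of_sq_le
    have e3 : (Real.exp (1 / 2 * Y) / 2) ^ 2 = Real.exp Y / 4 := by
      have e4 : Real.exp (1 / 2 * Y) ^ 2 = Real.exp Y := by
        rw [← Real.exp_nat_mul]; congr 1; push_cast; ring
      rw [div_pow, e4]; norm_num
    rw [e3]
    linarith only [hy1', heY]
  have e4 : (K : ℝ) * (((pic y h : ℝ) + (2 * Y + 2) * (h / Real.sqrt y + 1)) * ((Y + 1) / y)) ≤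
      2 * L₀ * Real.exp Y / h * ((c * h / Y + (2 * Y + 2) * (h / (Real.exp (1 / 2 * Y) / 2) + 1)) *
        ((Y + 1) / (Real.exp Y / (3 / 2)))) := by
    have e5 : Real.exp Y / (3 / 2) ≤ y := by
      rw [div_le_iff₀ (by norm_num)]; linarith only [hy1']
    gcongr
  have e6 : 2 * L₀ * Real.exp Y / h * ((c * h / Y + (2 * Y + 2) * (h / (Real.exp (1 / 2 * Y) / 2) + 1)) *
        ((Y + 1) / (Real.exp Y / (3 / 2)))) =
      3 * L₀ * c * ((Y + 1) / Y) + 12 * L₀ * (Y + 1) ^ 2 * (1 / Real.exp (1 / 2 * Y)) +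
        6 * L₀ * (Y + 1) ^ 2 * (1 / h) := by
    have : Y ≠ 0 := by positivity
    field_simp
    ring
  have e7 : 3 * L₀ * c * ((Y + 1) / Y) ≤ c₅ / 16 := by
    have e8 : (Y + 1) / Y ≤ 21 / 20 := by
      rw [div_le_div_iff₀ (by linarith only [hY20]) (by norm_num)]; linarith only [hY20]
    have e9 : L₀ * c = c₅ / 64 := by rw [hc]; field_simp
    calc 3 * L₀ * c * ((Y + 1) / Y) ≤ 3 * L₀ * c * (21 / 20) := by gcongr
      _ = 3 * (L₀ * c) * (21 / 20) := by ring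
      _ ≤ _ := by rw [e9]; linarith only [hc₅0]
  have e10 : 12 * L₀ * (Y + 1) ^ 2 * (1 / Real.exp (1 / 2 * Y)) ≤ c₅ / 32 := by
    refine le_trans ?_ hV5
    rw [Real.exp_neg, ← one_div]
    gcongr <;> linarith only [hY20]
  have e11 : 6 * L₀ * (Y + 1) ^ 2 * (1 / h) ≤ c₅ / 32 := by
    refine le_trans ?_ hV5'
    gcongr <;> linarith only [hY20]
  have e12 := mul_le_mul_of_nonneg_left e2 hK0.le
  refine e1.trans (e12.trans (e4.trans ?_))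
  rw [e6]
  linarith only [e7, e10, e11]

/-- part (b) -/
lemma feB {Y u₀ y h c c₅ L₀ CB E : ℝ} {a : ℕ → ℝ} (K : ℕ) (hK100 : 100 ≤ K) (hY20 : 20 ≤ Y) (hE0 : 0 ≤ E)
    (ha1 : ∀ n : ℕ, 1 ≤ n → |Real.log n - Y| ≤ 1 / 2 → a n = ArithmeticFunction.vonMangoldt n / n)
    (ha2 : ∀ n : ℕ, 1 ≤ n → |a n| ≤ E / n)
    (ha3 : ∀ n : ℕ, 1 ≤ n → 3 / 2 < |Real.log n - Y| → a n = 0)
    (hu : |u₀ - Y| ≤ 0.41) (hu₀ : u₀ = Real.log (y + h / 2)) (hy : 0 < y) (hh0 : 0 < h)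
    (hc₅0 : 0 < c₅) (hCB : 1 ≤ CB) (hL₀ : L₀ = 5 * (320 * CB / c₅ + 1))
    (hc : c = c₅ / (64 * L₀))
    (hout : E * (Y + 3) * (1300 / (K : ℝ)) ≤ c₅ / 10)
    (hbt : ∀ v : ℝ, |v - Y| ≤ 1 → SL v (1 / K) ≤ CB / K)
    (hy1' : Real.exp Y ≤ 3 / 2 * y) (hyh : y + h ≤ 5 / 2 * Real.exp Y)
    (hpic : (pic y h : ℝ) < c * h / Y) (hKlo : L₀ * Real.exp Y / h ≤ K) (hKhi : (K : ℝ) ≤ 2 * L₀ * Real.exp Y / h)
    (hV5 : (16 * L₀) * (Y + 3) ^ 2 * Real.exp (-((1 / 2) * Y)) ≤ c₅ / 32)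
    (hV5' : (8 * L₀) * (Y + 3) ^ 2 * (1 / h) ≤ c₅ / 32) :
    FF Y u₀ a K ≤ c₅ / 2 := by
  have hK0 : (0 : ℝ) < K := by exact_mod_cast (by omega : 0 < K)
  have hyh2 : 0 < y + h / 2 := by positivity
  have heY : 0 < Real.exp Y := Real.exp_pos Y
  have hCB0 : 0 < CB := by linarith only [hCB]
  have hL₀0 : 0 < L₀ := by rw [hL₀]; positivity
  rw [FF_split Y u₀ a ha1]
  have h1 := outer (by linarith only [hY20] : 0 ≤ Y) hE0 ha2 ha3 hu K (by omega)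
  have h2 := (abs_le.1 (h1.trans hout)).2
  obtain ⟨J, hJ⟩ : ∃ J : ℕ, J = ⌊L₀ / 5⌋₊ := ⟨_, rfl⟩
  have e1 : L₀ / 5 = 320 * CB / c₅ + 1 := by rw [hL₀]; ring
  have hJle : (J : ℝ) ≤ L₀ / 5 := by rw [hJ]; exact Nat.floor_le (by positivity)
  have hJge : 320 * CB / c₅ ≤ J := by
    have := Nat.lt_floor_add_one (L₀ / 5)
    rw [← hJ, e1] at this
    linarith only [this]
  have hJ1 : 1 ≤ J := by
    rw [hJ, Nat.one_le_floor_iff, e1]
    have : 0 ≤ 320 * CB / c₅ := by positivity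
    linarith only [this]
  have hJ0 : (0 : ℝ) < J := by exact_mod_cast hJ1
  have hJK : (J : ℝ) / K ≤ h / (5 * Real.exp Y) := by
    rw [div_le_div_iff₀ hK0 (by positivity)]
    have h3 : L₀ * Real.exp Y ≤ K * h := by rw [div_le_iff₀ hh0] at hKlo; exact hKlo
    calc (J : ℝ) * (5 * Real.exp Y) ≤ L₀ / 5 * (5 * Real.exp Y) := by gcongr
      _ = L₀ * Real.exp Y := by ring
      _ ≤ h * K := by linarith only [h3]
  have hlow1 : h / (5 * Real.exp Y) ≤ (h / 2) / (y + h) := by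
    rw [div_le_div_iff₀ (by positivity) (by positivity)]
    calc h * (y + h) ≤ h * (5 / 2 * Real.exp Y) := by gcongr
      _ = h / 2 * (5 * Real.exp Y) := by ring
  have hR : ∀ n : ℕ, y + h < n → (J : ℝ) / K ≤ Real.log n - u₀ := by
    intro n hn
    have hyhp : 0 < y + h := by positivity
    have e1 : Real.log (y + h) ≤ Real.log n := Real.log_le_log hyhp hn.le
    have e2 : (h / 2) / (y + h) ≤ Real.log (y + h) - u₀ := by
      rw [hu₀, ← Real.log_div hyhp.ne' hyh2.ne']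
      have e3 := Real.one_sub_inv_le_log_of_pos (x := (y + h) / (y + h / 2)) (by positivity)
      refine le_trans (le_of_eq ?_) e3
      field_simp
      ring
    linarith only [e1, e2, hJK, hlow1]
  have hL : ∀ n : ℕ, 1 ≤ n → (n : ℝ) ≤ y → (J : ℝ) / K ≤ u₀ - Real.log n := by
    intro n hn1 hn
    have hn0 : (0 : ℝ) < n := by exact_mod_cast hn1
    have e1 : Real.log n ≤ Real.log y := Real.log_le_log hn0 hn
    have e2 : (h / 2) / (y + h) ≤ u₀ - Real.log y := by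
      rw [hu₀, ← Real.log_div hyh2.ne' hy.ne']
      have e3 := Real.one_sub_inv_le_log_of_pos (x := (y + h / 2) / y) (by positivity)
      refine le_trans ?_ e3
      have e4 : 1 - ((y + h / 2) / y)⁻¹ = (h / 2) / (y + h / 2) := by
        field_simp
        ring
      rw [e4]
      gcongr
      linarith only [hh0]
    linarith only [e1, e2, hJK, hlow1]
  have hsR := right_side hCB0.le K J hK100 hJ1 hbt hu hR
  have hsL := left_side hCB0.le K J hK100 hJ1 hbt hu hL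
  have hside : 20 * CB / J ≤ c₅ / 16 := by
    rw [div_le_iff₀ hJ0]
    rw [div_le_iff₀ hc₅0] at hJge
    linarith only [hJge]
  have hmid := feM (u₀ := u₀) hY20 hy hh0 hL₀0 hc hc₅0 hK0 hy1' hyh hpic hKhi hV5 hV5'
  have hsplit2 : ∑ n ∈ (sY Y).filter (fun n : ℕ => |Real.log n - Y| ≤ 1 / 2),
      ArithmeticFunction.vonMangoldt n / n * Fj K (Real.log n - u₀) =
      ∑ n ∈ ((sY Y).filter (fun n : ℕ => |Real.log n - Y| ≤ 1 / 2)).filter (fun n : ℕ => (n : ℝ) ≤ y),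
        ArithmeticFunction.vonMangoldt n / n * Fj K (Real.log n - u₀) +
      (∑ n ∈ (((sY Y).filter (fun n : ℕ => |Real.log n - Y| ≤ 1 / 2)).filter (fun n : ℕ => ¬ (n : ℝ) ≤ y)).filter
        (fun n : ℕ => y + h < n), ArithmeticFunction.vonMangoldt n / n * Fj K (Real.log n - u₀) +
      ∑ n ∈ (((sY Y).filter (fun n : ℕ => |Real.log n - Y| ≤ 1 / 2)).filter (fun n : ℕ => ¬ (n : ℝ) ≤ y)).filter
        (fun n : ℕ => ¬ y + h < n), ArithmeticFunction.vonMangoldt n / n * Fj K (Real.log n - u₀)) := by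
    rw [Finset.sum_filter_add_sum_filter_not, Finset.sum_filter_add_sum_filter_not]
  have hRsub : ∑ n ∈ (((sY Y).filter (fun n : ℕ => |Real.log n - Y| ≤ 1 / 2)).filter (fun n : ℕ => ¬ (n : ℝ) ≤ y)).filter
        (fun n : ℕ => y + h < n), ArithmeticFunction.vonMangoldt n / n * Fj K (Real.log n - u₀) ≤
      ∑ n ∈ ((sY Y).filter (fun n : ℕ => |Real.log n - Y| ≤ 1 / 2)).filter (fun n : ℕ => y + h < n),
        ArithmeticFunction.vonMangoldt n / n * Fj K (Real.log n - u₀) :=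
    Finset.sum_le_sum_of_subset_of_nonneg
      (Finset.filter_subset_filter _ (Finset.filter_subset _ _)) (fun n _ _ => term_nonneg u₀ K n)
  rw [hsplit2]
  linarith only [h2, hsR, hsL, hside, hmid, hRsub, hc₅0]

/-- **FE** -/
theorem fe (hFJL : S_FJL) (hBTL : S_BTL) (hHOL : S_HOL) : S_FE := by
  obtain ⟨ε₄, cH, YH, hε₄, hε₄', hcH, hHOL⟩ := hHOL
  refine ⟨ε₄, hε₄, hε₄', ?_⟩
  intro ε₃ θ hε₃ hε₃' hθ hθ1
  obtain ⟨CB, YB, hCB, hBTL⟩ := hBTL (1 - θ / 2) (by linarith) (by linarith)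
  set c₅ : ℝ := cH / 4 with hc₅
  have hc₅0 : 0 < c₅ := by positivity
  set L₀ : ℝ := 5 * (320 * CB / c₅ + 1) with hL₀
  have hL₀1 : 1 ≤ L₀ := by
    have : 0 ≤ 320 * CB / c₅ := by positivity
    rw [hL₀]; linarith
  have hL₀0 : 0 < L₀ := by linarith
  set c : ℝ := c₅ / (64 * L₀) with hc
  have hc0 : 0 < c := by positivity
  have hev : ∀ᶠ Y : ℝ in atTop, (20 ≤ Y ∧ YH ≤ Y ∧ YB ≤ Y) ∧
      1300 * (Y + 3) ^ 1 * Real.exp (-((11 / 4 * ε₃) * Y)) ≤ c₅ / 10 ∧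
      8 * (Y + 3) ^ 0 * Real.exp (-(ε₃ * Y)) ≤ 1 ∧
      200 * (Y + 3) ^ 0 * Real.exp (-((3 * ε₃) * Y)) ≤ 1 ∧
      (2 * L₀) * (Y + 3) ^ 0 * Real.exp (-((θ / 2) * Y)) ≤ 1 ∧
      (16 * L₀) * (Y + 3) ^ 2 * Real.exp (-((1 / 2) * Y)) ≤ c₅ / 32 ∧
      (8 * L₀) * (Y + 3) ^ 2 * Real.exp (-(θ * Y)) ≤ c₅ / 32 ∧
      2 * (Y + 3) ^ 1 * Real.exp (-((3 / 4 * ε₃) * Y)) ≤ c₅ / 4 ∧
      200 * (Y + 3) ^ 0 * Real.exp (-((4 * ε₃) * Y)) ≤ 1 :=
    by
      filter_upwards [eventually_ge_atTop 20, eventually_ge_atTop YH, eventually_ge_atTop YB,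
        ev_small (11 / 4 * ε₃) 1300 (c₅ / 10) 1 (by positivity) (by positivity),
        ev_small ε₃ 8 1 0 (by positivity) (by positivity),
        ev_small (3 * ε₃) 200 1 0 (by positivity) (by positivity),
        ev_small (θ / 2) (2 * L₀) 1 0 (by positivity) (by positivity),
        ev_small (1 / 2) (16 * L₀) (c₅ / 32) 2 (by positivity) (by positivity),
        ev_small θ (8 * L₀) (c₅ / 32) 2 (by positivity) (by positivity),
        ev_small (3 / 4 * ε₃) 2 (c₅ / 4) 1 (by positivity) (by positivity),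
        ev_small (4 * ε₃) 200 1 0 (by positivity) (by positivity)] with Y a1 a2 a3 a4 a5 a6 a7 a8 a9 a10 a11
      exact ⟨⟨a1, a2, a3⟩, a4, a5, a6, a7, a8, a9, a10, a11⟩
  obtain ⟨Y₀, hY₀⟩ := eventually_atTop.1 hev
  refine ⟨c, c₅ / 4, L₀, Y₀, hc0, by positivity, hL₀1, ?_⟩
  intro Y hY a ha1 ha2 ha3 y h hy hyY hh1 hh2 hpic
  obtain ⟨⟨hY20, hYH, hYB⟩, hV2, hV3, hV3', hV4, hV5, hV5', hV6, hV7⟩ := hY₀ Y hY
  simp only [pow_zero, mul_one, pow_one] at hV2 hV3 hV3' hV4 hV6 hV7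
  have hpi := Real.pi_pos
  have hpi4 : Real.pi ^ 2 ≤ 10 := by nlinarith [Real.pi_lt_d2, Real.pi_gt_three]
  -- y
  have hh0 : 0 < h := lt_of_lt_of_le (Real.exp_pos _) hh1
  obtain ⟨hyY1, hyY2⟩ := abs_le.1 hyY
  have hy1 : Real.exp (Y - 2 / 5) ≤ y := by
    rw [← Real.le_log_iff_exp_le hy]; linarith
  have hy2 : y ≤ Real.exp (Y + 2 / 5) := by
    rw [← Real.log_le_iff_le_exp hy]; linarith
  have he04 : Real.exp (2 / 5) ≤ 3 / 2 := by
    have h1 := Real.exp_bound_div_one_sub_of_interval (x := 1 / 5) (by norm_num) (by norm_num)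
    have h2 : Real.exp (2 / 5) = Real.exp (1 / 5) ^ 2 := by
      rw [← Real.exp_nat_mul]; norm_num
    rw [h2]
    have h3 : Real.exp (1 / 5 : ℝ) ≤ 1.2215 := by
      have := Real.exp_bound' (x := 1 / 5) (by norm_num) (by norm_num) (n := 5) (by norm_num)
      refine this.trans ?_
      norm_num [Finset.sum_range_succ, Nat.factorial]
    calc Real.exp (1 / 5) ^ 2 ≤ 1.2215 ^ 2 := by gcongr
      _ ≤ 3 / 2 := by norm_num
  have heY : 0 < Real.exp Y := Real.exp_pos Y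
  have hy1' : Real.exp Y ≤ 3 / 2 * y := by
    have : Real.exp Y = Real.exp (Y - 2 / 5) * Real.exp (2 / 5) := by rw [← Real.exp_add]; congr 1; ring
    rw [this]
    calc _ ≤ y * (3 / 2) := by gcongr
      _ = _ := by ring
  have hy2' : y ≤ 3 / 2 * Real.exp Y := by
    refine hy2.trans ?_
    rw [Real.exp_add]
    nlinarith
  -- h / y small
  have hhy : h ≤ y / 100 := by
    have h1 : h ≤ Real.exp Y * Real.exp (-((4 * ε₃) * Y)) := by
      rw [← Real.exp_add]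
      refine hh2.trans (le_of_eq ?_)
      congr 1; ring
    have h2 : Real.exp (-((4 * ε₃) * Y)) ≤ 1 / 200 := by linarith
    calc h ≤ Real.exp Y * (1 / 200) := h1.trans (by gcongr)
      _ ≤ (3 / 2 * y) * (1 / 200) := by gcongr
      _ ≤ y / 100 := by linarith
  set u₀ := Real.log (y + h / 2) with hu₀
  have hyh2 : 0 < y + h / 2 := by positivity
  have hu₀1 : Real.log y ≤ u₀ := Real.log_le_log hy (by linarith)
  have hu₀2 : u₀ ≤ Real.log y + 1 / 200 := by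
    rw [hu₀, Real.log_le_iff_le_exp hyh2, Real.exp_add, Real.exp_log hy]
    have := Real.add_one_le_exp (1 / 200 : ℝ)
    nlinarith
  have hu : |u₀ - Y| ≤ 0.405 := by
    rw [abs_le]; constructor <;> linarith
  have hu' : |u₀ - Y| ≤ 0.41 := hu.trans (by norm_num)
  obtain ⟨hua, hub⟩ := abs_le.1 hu
  -- K₀
  set K₀ : ℕ := ⌈Real.exp (ε₃ * Y)⌉₊ with hK₀
  have hex8 : 8 ≤ Real.exp (ε₃ * Y) := by
    have h1 : Real.exp (ε₃ * Y) * Real.exp (-(ε₃ * Y)) = 1 := by rw [← Real.exp_add]; simp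
    nlinarith [Real.exp_pos (ε₃ * Y), Real.exp_pos (-(ε₃ * Y))]
  have hK₀lo : Real.exp (ε₃ * Y) ≤ K₀ := Nat.le_ceil _
  have hK₀hi : (K₀ : ℝ) ≤ Real.exp (ε₃ * Y) + 1 := (Nat.ceil_lt_add_one (Real.exp_pos _).le).le
  have hK₀8 : (8 : ℝ) ≤ K₀ := hex8.trans hK₀lo
  have hK₀1 : 1 ≤ K₀ := by
    have : (1 : ℝ) ≤ K₀ := by linarith
    exact_mod_cast this
  -- K₁
  set K₁ : ℕ := K₀ ^ 3 with hK₁
  have hK₁cast : (K₁ : ℝ) = (K₀ : ℝ) ^ 3 := by rw [hK₁]; push_cast; ring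
  have hK₁lo : Real.exp (3 * ε₃ * Y) ≤ K₁ := by
    rw [hK₁cast]
    have : Real.exp (3 * ε₃ * Y) = Real.exp (ε₃ * Y) ^ 3 := by
      rw [← Real.exp_nat_mul]; congr 1; push_cast; ring
    rw [this]; gcongr
  have hK₁hi : (K₁ : ℝ) ≤ Real.exp (4 * ε₃ * Y) := by
    rw [hK₁cast]
    have e1 : Real.exp (4 * ε₃ * Y) = Real.exp (ε₃ * Y) ^ 4 := by
      rw [← Real.exp_nat_mul]; congr 1; push_cast; ring
    rw [e1]
    have e2 : (K₀ : ℝ) ≤ 2 * Real.exp (ε₃ * Y) := by linarith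
    calc (K₀ : ℝ) ^ 3 ≤ (2 * Real.exp (ε₃ * Y)) ^ 3 := by gcongr
      _ = 8 * Real.exp (ε₃ * Y) ^ 3 := by ring
      _ ≤ Real.exp (ε₃ * Y) * Real.exp (ε₃ * Y) ^ 3 := by gcongr
      _ = _ := by ring
  have hK₁100' : (100 : ℝ) ≤ K₁ := by
    refine le_trans ?_ hK₁lo
    have h1 : Real.exp (3 * ε₃ * Y) * Real.exp (-((3 * ε₃) * Y)) = 1 := by rw [← Real.exp_add]; simp
    nlinarith [Real.exp_pos (3 * ε₃ * Y), Real.exp_pos (-((3 * ε₃) * Y))]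
  have hK₁100 : 100 ≤ K₁ := by exact_mod_cast hK₁100'
  have hK₁0 : (0 : ℝ) < K₁ := by linarith
  have hK01 : K₀ ≤ K₁ := Nat.le_self_pow (by norm_num) K₀
  -- K
  set K : ℕ := ⌈L₀ * Real.exp Y / h⌉₊ with hK
  have hKlo : L₀ * Real.exp Y / h ≤ K := Nat.le_ceil _
  have hKhi0 : (K : ℝ) ≤ L₀ * Real.exp Y / h + 1 := (Nat.ceil_lt_add_one (by positivity)).le
  have hrat : Real.exp (4 * ε₃ * Y) ≤ Real.exp Y / h := by
    rw [le_div_iff₀ hh0]
    calc Real.exp (4 * ε₃ * Y) * h ≤ Real.exp (4 * ε₃ * Y) * Real.exp ((1 - 4 * ε₃) * Y) := by gcongr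
      _ = Real.exp Y := by rw [← Real.exp_add]; congr 1; ring
  have hLK : Real.exp Y / h ≤ L₀ * Real.exp Y / h := by
    rw [mul_div_assoc]
    have : 0 < Real.exp Y / h := by positivity
    nlinarith
  have hK1K' : (K₁ : ℝ) ≤ K := (hK₁hi.trans (hrat.trans hLK)).trans hKlo
  have hK1K : K₁ ≤ K := by exact_mod_cast hK1K'
  have hK100 : 100 ≤ K := hK₁100.trans hK1K
  have hK0 : (0 : ℝ) < K := by linarith
  have hKhi : (K : ℝ) ≤ 2 * L₀ * Real.exp Y / h := by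
    have h1 : 1 ≤ L₀ * Real.exp Y / h := by
      have : (100 : ℝ) ≤ Real.exp (4 * ε₃ * Y) := by linarith
      linarith
    have : 2 * L₀ * Real.exp Y / h = L₀ * Real.exp Y / h + L₀ * Real.exp Y / h := by ring
    rw [this]; linarith
  have hKθ : Real.exp (-((1 - θ / 2) * Y)) ≤ 1 / K := by
    rw [le_div_iff₀ hK0]
    have h1 : (K : ℝ) ≤ 2 * L₀ * Real.exp ((1 - θ) * Y) := by
      refine hKhi.trans ?_
      rw [div_le_iff₀ hh0]
      calc 2 * L₀ * Real.exp Y = 2 * L₀ * (Real.exp ((1 - θ) * Y) * Real.exp (θ * Y)) := by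
            rw [← Real.exp_add]; congr 2; ring
        _ ≤ 2 * L₀ * (Real.exp ((1 - θ) * Y) * h) := by gcongr
        _ = _ := by ring
    calc Real.exp (-((1 - θ / 2) * Y)) * K ≤
          Real.exp (-((1 - θ / 2) * Y)) * (2 * L₀ * Real.exp ((1 - θ) * Y)) := by gcongr
      _ = 2 * L₀ * (Real.exp (-((1 - θ / 2) * Y)) * Real.exp ((1 - θ) * Y)) := by ring
      _ = 2 * L₀ * Real.exp (-((θ / 2) * Y)) := by rw [← Real.exp_add]; congr 2; ring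
      _ ≤ 1 := hV4
  -- E
  set E : ℝ := Real.exp (ε₃ / 4 * Y) with hE
  have hE0 : 0 < E := Real.exp_pos _
  have hY0 : 0 ≤ Y := by linarith
  have houtb : ∀ K' : ℕ, K₁ ≤ K' → E * (Y + 3) * (1300 / (K' : ℝ)) ≤ c₅ / 10 := by
    intro K' hK'
    have hK'' : (K₁ : ℝ) ≤ K' := by exact_mod_cast hK'
    calc E * (Y + 3) * (1300 / (K' : ℝ)) ≤ E * (Y + 3) * (1300 / Real.exp (3 * ε₃ * Y)) := by
          have := hK₁lo.trans hK''
          gcongr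
      _ = 1300 * (Y + 3) * (E / Real.exp (3 * ε₃ * Y)) := by ring
      _ = 1300 * (Y + 3) * Real.exp (-((11 / 4 * ε₃) * Y)) := by
          rw [hE, ← Real.exp_sub]; congr 2; ring
      _ ≤ _ := hV2
  have hA : c₅ ≤ FF Y u₀ a K₁ := by
    refine feA hFJL K₁ hK₁100 hY0 hE0.le ha1 ha2 ha3 hu hcH hc₅ ?_ (houtb K₁ le_rfl)
    refine hHOL Y u₀ (1 / K₁) hYH (hu'.trans (by norm_num)) ?_ (by gcongr)
    rw [le_div_iff₀ hK₁0]
    calc Real.exp (-(4 * ε₄ * Y)) * K₁ ≤ Real.exp (-(4 * ε₄ * Y)) * Real.exp (4 * ε₃ * Y) := by gcongr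
      _ = Real.exp (-(4 * (ε₄ - ε₃) * Y)) := by rw [← Real.exp_add]; congr 1; ring
      _ ≤ 1 := by
        rw [Real.exp_le_one_iff]
        have : 0 ≤ 4 * (ε₄ - ε₃) * Y := mul_nonneg (by linarith) hY0
        linarith
  have hB : FF Y u₀ a K ≤ c₅ / 2 := by
    refine feB K hK100 hY20 hE0.le ha1 ha2 ha3 hu' hu₀ hy hh0 hc₅0 hCB hL₀ hc (houtb K hK1K) ?_ hy1'
      (by linarith only [hy2', hhy, heY, hh0, hy]) hpic hKlo hKhi hV5 ?_
    · intro v hv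
      have := hBTL Y v (1 / K) hYB hv hKθ (by
        rw [div_le_one hK0]; linarith only [hK1K', hK₁100'])
      rwa [mul_one_div] at this
    · refine le_trans ?_ hV5'
      rw [Real.exp_neg, ← one_div]
      gcongr
  -- conclusion
  have hall := mK_sum Y u₀ a (by omega : 1 ≤ K₁) hK1K
  have hlow := low Y u₀ a hK₀1 hK01 hK1K
  have hS := sum_abs_le hY0 hE0.le ha2
  have hK₀0 : (0 : ℝ) < K₀ := by linarith
  have hlow2 : 2 * (K₀ : ℝ) * ((K₀ : ℝ) / K₁) * ∑ n ∈ sY Y, |a n| ≤ c₅ / 4 := by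
    calc 2 * (K₀ : ℝ) * ((K₀ : ℝ) / K₁) * ∑ n ∈ sY Y, |a n| ≤ 2 * (K₀ : ℝ) * ((K₀ : ℝ) / K₁) * (E * (Y + 3)) := by
          gcongr
      _ = 2 * (Y + 3) * (E / K₀) := by rw [hK₁cast]; field_simp
      _ ≤ 2 * (Y + 3) * (E / Real.exp (ε₃ * Y)) := by gcongr
      _ = 2 * (Y + 3) * Real.exp (-((3 / 4 * ε₃) * Y)) := by
          rw [hE, ← Real.exp_sub]; congr 2; ring
      _ ≤ _ := hV6
  have hsplit3 : ∑ k ∈ FK K, ((mK K₁ K k : ℝ) : ℂ) * AP Y u₀ a k =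
      ∑ k ∈ (FK K).filter (fun k => (K₀ : ℤ) ≤ |k|), ((mK K₁ K k : ℝ) : ℂ) * AP Y u₀ a k +
      ∑ k ∈ (FK K).filter (fun k => ¬ (K₀ : ℤ) ≤ |k|), ((mK K₁ K k : ℝ) : ℂ) * AP Y u₀ a k :=
    (Finset.sum_filter_add_sum_filter_not _ _ _).symm
  have hnorm : c₅ / 2 ≤ ‖∑ k ∈ FK K, ((mK K₁ K k : ℝ) : ℂ) * AP Y u₀ a k‖ := by
    rw [hall, Complex.norm_real, Real.norm_eq_abs]
    have : FF Y u₀ a K - FF Y u₀ a K₁ ≤ -(c₅ / 2) := by linarith
    have h2 := neg_abs_le (FF Y u₀ a K - FF Y u₀ a K₁)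
    linarith
  have hfin : ∑ k ∈ (FK K).filter (fun k => (K₀ : ℤ) ≤ |k|), ((mK K₁ K k : ℝ) : ℂ) * AP Y u₀ a k =
      ∑ k ∈ (FK K).filter (fun k => (K₀ : ℤ) ≤ |k|), ((mK K₁ K k : ℝ) : ℂ) *
          Complex.exp (((k : ℝ) * u₀ : ℝ) * Complex.I) *
          DP (Icc 1 ⌊Real.exp (Y + 3 / 2)⌋₊) (fun n => ((a n : ℝ) : ℂ)) k := by
    refine Finset.sum_congr rfl fun k _ => ?_
    unfold AP sY
    rw [mul_assoc]
  rw [← hfin]
  have htri : ‖∑ k ∈ FK K, ((mK K₁ K k : ℝ) : ℂ) * AP Y u₀ a k‖ ≤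
      ‖∑ k ∈ (FK K).filter (fun k => (K₀ : ℤ) ≤ |k|), ((mK K₁ K k : ℝ) : ℂ) * AP Y u₀ a k‖ +
      ‖∑ k ∈ (FK K).filter (fun k => ¬ (K₀ : ℤ) ≤ |k|), ((mK K₁ K k : ℝ) : ℂ) * AP Y u₀ a k‖ := by
    rw [hsplit3]; exact norm_add_le _ _
  linarith

end Pool.Agent.Q257.KS
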