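import Pool.Agent.Q240.KS.Stm1
import Pool.Agent.H376R2.MR.Fej
import Pool.Agent.Q257.KS.LSD

/-! # KS-FE (helper257, for helper240), part a: elementary lemmas -/

set_option autoImplicit false

namespace Pool.Agent.Q257.KS
open Finset Pool.Agent.Q240.KS Pool.Agent.H376R2.MR Filter

/-- polynomial times decaying exponential is eventually small -/
lemma ev_small (a C δ : ℝ) (j : ℕ) (ha : 0 < a) (hδ : 0 < δ) :
    ∀ᶠ Y : ℝ in atTop, C * (Y + 3) ^ j * Real.exp (-(a * Y)) ≤ δ := by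
  have h1 : Tendsto (fun x : ℝ => x ^ j * Real.exp (-x)) atTop (nhds 0) :=
    Real.tendsto_pow_mul_exp_neg_atTop_nhds_zero j
  have h2 : Tendsto (fun Y : ℝ => a * (Y + 3)) atTop atTop :=
    Filter.Tendsto.const_mul_atTop ha (tendsto_atTop_add_const_right _ _ tendsto_id)
  have h3 := (h1.comp h2).const_mul (C * (1 / a ^ j) * Real.exp (a * 3))
  rw [mul_zero] at h3
  have h4 : (fun Y : ℝ => C * (Y + 3) ^ j * Real.exp (-(a * Y))) = fun Y : ℝ =>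
      C * (1 / a ^ j) * Real.exp (a * 3) * ((fun x : ℝ => x ^ j * Real.exp (-x)) ∘ fun Y : ℝ => a * (Y + 3)) Y := by
    funext Y
    simp only [Function.comp]
    have e1 : Real.exp (-(a * (Y + 3))) = Real.exp (-(a * Y)) * Real.exp (-(a * 3)) := by
      rw [← Real.exp_add]; congr 1; ring
    have e2 : Real.exp (a * 3) * Real.exp (-(a * 3)) = 1 := by
      rw [← Real.exp_add]; simp
    rw [e1, mul_pow]
    have ha' : a ^ j ≠ 0 := by positivity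
    calc C * (Y + 3) ^ j * Real.exp (-(a * Y))
        = C * (a ^ j / a ^ j) * (Y + 3) ^ j * Real.exp (-(a * Y)) * (Real.exp (a * 3) * Real.exp (-(a * 3))) := by
          rw [e2, div_self ha']; ring
      _ = _ := by ring
  rw [← h4] at h3
  have h5 := h3.eventually (gt_mem_nhds hδ)
  exact h5.mono fun Y hY => hY.le

lemma harm_le (N : ℕ) : ∑ n ∈ Icc 1 N, 1 / (n : ℝ) ≤ 1 + Real.log N := by
  have h := harmonic_le_one_add_log N
  rw [harmonic_eq_sum_Icc] at h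
  push_cast at h
  simpa [one_div] using h

/-- the range of summation -/
noncomputable def sY (Y : ℝ) : Finset ℕ := Icc 1 ⌊Real.exp (Y + 3 / 2)⌋₊

lemma sY_mem {Y : ℝ} {n : ℕ} (hn : n ∈ sY Y) : 1 ≤ n := (Finset.mem_Icc.1 hn).1

lemma sum_inv_le {Y : ℝ} (hY : 0 ≤ Y) : ∑ n ∈ sY Y, 1 / (n : ℝ) ≤ Y + 3 := by
  refine (harm_le _).trans ?_
  have h1 : 1 ≤ ⌊Real.exp (Y + 3 / 2)⌋₊ := by
    rw [Nat.one_le_floor_iff]
    exact Real.one_le_exp (by linarith)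
  have h2 : Real.log (⌊Real.exp (Y + 3 / 2)⌋₊ : ℝ) ≤ Y + 3 / 2 := by
    rw [Real.log_le_iff_le_exp (by exact_mod_cast h1)]
    exact Nat.floor_le (Real.exp_pos _).le
  linarith

lemma sum_abs_le {Y E : ℝ} (hY : 0 ≤ Y) (hE : 0 ≤ E) {a : ℕ → ℝ} (ha : ∀ n : ℕ, 1 ≤ n → |a n| ≤ E / n) :
    ∑ n ∈ sY Y, |a n| ≤ E * (Y + 3) := by
  calc ∑ n ∈ sY Y, |a n| ≤ ∑ n ∈ sY Y, E * (1 / (n : ℝ)) := by
        refine Finset.sum_le_sum fun n hn => ?_
        rw [mul_one_div]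
        exact ha n (sY_mem hn)
    _ = E * ∑ n ∈ sY Y, 1 / (n : ℝ) := by rw [Finset.mul_sum]
    _ ≤ _ := by
        have := sum_inv_le hY
        gcongr

/-- the Fejer sum -/
noncomputable def FF (Y u₀ : ℝ) (a : ℕ → ℝ) (K : ℕ) : ℝ := ∑ n ∈ sY Y, a n * Fj K (Real.log n - u₀)

/-- the Dirichlet polynomial with the phase -/
noncomputable def AP (Y u₀ : ℝ) (a : ℕ → ℝ) (k : ℤ) : ℂ :=
  Complex.exp (((k : ℝ) * u₀ : ℝ) * Complex.I) * DP (sY Y) (fun n => ((a n : ℝ) : ℂ)) k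

lemma FF_eq (Y u₀ : ℝ) (a : ℕ → ℝ) (K : ℕ) :
    ∑ k ∈ FK K, ((1 - |(k : ℝ)| / K : ℝ) : ℂ) * AP Y u₀ a k = ((FF Y u₀ a K : ℝ) : ℂ) := by
  unfold FF AP DP
  rw [Complex.ofReal_sum]
  have h1 : ∀ k ∈ FK K, ((1 - |(k : ℝ)| / K : ℝ) : ℂ) * (Complex.exp (((k : ℝ) * u₀ : ℝ) * Complex.I) *
      ∑ n ∈ sY Y, (((a n : ℝ) : ℂ)) * ch k (Real.log n)) = ∑ n ∈ sY Y, ((a n : ℝ) : ℂ) *
        (((1 - |(k : ℝ)| / K : ℝ) : ℂ) * Complex.exp (-((k * (Real.log n - u₀) : ℝ) : ℂ) * Complex.I)) := by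
    intro k _
    rw [Finset.mul_sum, Finset.mul_sum]
    refine Finset.sum_congr rfl fun n _ => ?_
    unfold ch
    have h2 : Complex.exp (-((k * (Real.log n - u₀) : ℝ) : ℂ) * Complex.I) =
        Complex.exp (((k : ℝ) * u₀ : ℝ) * Complex.I) * Complex.exp (-((k * Real.log n : ℝ) : ℂ) * Complex.I) := by
      rw [← Complex.exp_add]
      congr 1
      push_cast
      ring
    rw [h2]
    push_cast
    ring
  rw [Finset.sum_congr rfl h1, Finset.sum_comm]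
  refine Finset.sum_congr rfl fun n _ => ?_
  rw [← Finset.mul_sum, fej_exp]
  push_cast
  ring

lemma FK_abs {K : ℕ} {k : ℤ} (hk : k ∈ FK K) : |(k : ℝ)| < K := by
  simp only [FK, Finset.mem_Ioo] at hk
  rw [abs_lt]
  constructor
  · exact_mod_cast hk.1
  · exact_mod_cast hk.2

lemma not_FK_abs {K : ℕ} {k : ℤ} (hk : k ∉ FK K) : (K : ℝ) ≤ |(k : ℝ)| := by
  by_contra h
  push Not at h
  rw [abs_lt] at h
  apply hk
  simp only [FK, Finset.mem_Ioo]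
  constructor
  · exact_mod_cast h.1
  · exact_mod_cast h.2

lemma mK_sum (Y u₀ : ℝ) (a : ℕ → ℝ) {K₁ K : ℕ} (h1 : 1 ≤ K₁) (hK : K₁ ≤ K) :
    ∑ k ∈ FK K, ((mK K₁ K k : ℝ) : ℂ) * AP Y u₀ a k = ((FF Y u₀ a K - FF Y u₀ a K₁ : ℝ) : ℂ) := by
  have hK₁0 : (0 : ℝ) < K₁ := by exact_mod_cast h1
  have hK0 : (0 : ℝ) < K := by exact_mod_cast h1.trans hK
  rw [Complex.ofReal_sub, ← FF_eq, ← FF_eq]
  have hsub : FK K₁ ⊆ FK K := by
    intro k hk
    simp only [FK, Finset.mem_Ioo] at hk ⊢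
    omega
  have h2 : ∑ k ∈ FK K₁, ((1 - |(k : ℝ)| / K₁ : ℝ) : ℂ) * AP Y u₀ a k =
      ∑ k ∈ FK K, ((max 0 (1 - |(k : ℝ)| / K₁) : ℝ) : ℂ) * AP Y u₀ a k := by
    rw [← Finset.sum_subset hsub]
    · refine Finset.sum_congr rfl fun k hk => ?_
      have := FK_abs hk
      rw [max_eq_right]
      rw [sub_nonneg, div_le_one hK₁0]
      exact this.le
    · intro k _ hk
      have := not_FK_abs hk
      rw [max_eq_left]
      · simp
      · rw [sub_nonpos, le_div_iff₀ hK₁0, one_mul]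
        exact this
  rw [h2, ← Finset.sum_sub_distrib]
  refine Finset.sum_congr rfl fun k hk => ?_
  have h3 : max 0 (1 - |(k : ℝ)| / K) = 1 - |(k : ℝ)| / K := by
    rw [max_eq_right]
    rw [sub_nonneg, div_le_one hK0]
    exact (FK_abs hk).le
  unfold mK
  rw [h3]
  push_cast
  ring

lemma AP_norm (Y u₀ : ℝ) (a : ℕ → ℝ) (k : ℤ) : ‖AP Y u₀ a k‖ ≤ ∑ n ∈ sY Y, |a n| := by
  unfold AP DP
  rw [norm_mul, Complex.norm_exp_ofReal_mul_I, one_mul]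
  refine (norm_sum_le _ _).trans (Finset.sum_le_sum fun n _ => ?_)
  rw [norm_mul, Complex.norm_real, Real.norm_eq_abs]
  unfold ch
  rw [← Complex.ofReal_neg, Complex.norm_exp_ofReal_mul_I, mul_one]

/-- the low frequencies -/
lemma low (Y u₀ : ℝ) (a : ℕ → ℝ) {K₀ K₁ K : ℕ} (h0 : 1 ≤ K₀) (h01 : K₀ ≤ K₁) (hK : K₁ ≤ K) :
    ‖∑ k ∈ (FK K).filter (fun k => ¬ (K₀ : ℤ) ≤ |k|), ((mK K₁ K k : ℝ) : ℂ) * AP Y u₀ a k‖ ≤
      2 * K₀ * ((K₀ : ℝ) / K₁) * ∑ n ∈ sY Y, |a n| := by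
  have hK₀0 : (0 : ℝ) < K₀ := by exact_mod_cast h0
  have hK₁0 : (0 : ℝ) < K₁ := by exact_mod_cast (h0.trans h01)
  have hK0 : (0 : ℝ) < K := by exact_mod_cast (h0.trans h01).trans hK
  have h01' : (K₀ : ℝ) ≤ K₁ := by exact_mod_cast h01
  have hK' : (K₁ : ℝ) ≤ K := by exact_mod_cast hK
  set S := ∑ n ∈ sY Y, |a n| with hS
  have hS0 : 0 ≤ S := Finset.sum_nonneg fun n _ => abs_nonneg _
  have hsub : (FK K).filter (fun k => ¬ (K₀ : ℤ) ≤ |k|) ⊆ FK K₀ := by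
    intro k hk
    have := (Finset.mem_filter.1 hk).2
    simp only [FK, Finset.mem_Ioo]
    rw [not_le, abs_lt] at this
    exact this
  have hcard : (((FK K).filter (fun k => ¬ (K₀ : ℤ) ≤ |k|)).card : ℝ) ≤ 2 * K₀ := by
    have h1 := Finset.card_le_card hsub
    have h2 : (FK K₀).card ≤ 2 * K₀ := by
      simp only [FK, Int.card_Ioo]
      omega
    exact_mod_cast h1.trans h2
  refine (norm_sum_le _ _).trans ?_
  have h1 : ∀ k ∈ (FK K).filter (fun k => ¬ (K₀ : ℤ) ≤ |k|),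
      ‖((mK K₁ K k : ℝ) : ℂ) * AP Y u₀ a k‖ ≤ (K₀ : ℝ) / K₁ * S := by
    intro k hk
    have hk' : |(k : ℝ)| < K₀ := FK_abs (hsub hk)
    rw [norm_mul, Complex.norm_real, Real.norm_eq_abs]
    have h2 : |mK K₁ K k| ≤ (K₀ : ℝ) / K₁ := by
      unfold mK
      have e1 : max 0 (1 - |(k : ℝ)| / K) = 1 - |(k : ℝ)| / K := by
        rw [max_eq_right]
        rw [sub_nonneg, div_le_one hK0]
        linarith
      have e2 : max 0 (1 - |(k : ℝ)| / K₁) = 1 - |(k : ℝ)| / K₁ := by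
        rw [max_eq_right]
        rw [sub_nonneg, div_le_one hK₁0]
        linarith
      rw [e1, e2]
      have e3 : |(k : ℝ)| / K ≤ |(k : ℝ)| / K₁ := by gcongr
      have e4 : |(k : ℝ)| / K₁ ≤ (K₀ : ℝ) / K₁ := by gcongr
      have e5 : 0 ≤ |(k : ℝ)| / K := by positivity
      rw [abs_le]
      constructor <;> linarith
    exact mul_le_mul h2 (AP_norm Y u₀ a k) (norm_nonneg _) (by positivity)
  refine (Finset.sum_le_card_nsmul _ _ _ h1).trans ?_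
  rw [nsmul_eq_mul]
  calc _ ≤ 2 * (K₀ : ℝ) * ((K₀ : ℝ) / K₁ * S) := by gcongr
    _ = _ := by ring

end Pool.Agent.Q257.KS
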