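import Pool.Agent.Q257.KS.FEa

/-! # KS-FE (helper257, for helper240), part b: outer terms, side terms, the middle interval -/

set_option autoImplicit false

namespace Pool.Agent.Q257.KS
open Finset Pool.Agent.Q240.KS Pool.Agent.H376R2.MR Filter

/-- terms with `|log n - Y| > 1/2` -/
lemma outer {Y E u₀ : ℝ} (hY : 0 ≤ Y) (hE : 0 ≤ E) {a : ℕ → ℝ} (ha : ∀ n : ℕ, 1 ≤ n → |a n| ≤ E / n)
    (ha0 : ∀ n : ℕ, 1 ≤ n → 3 / 2 < |Real.log n - Y| → a n = 0) (hu : |u₀ - Y| ≤ 0.41) (K : ℕ) (hK : 1 ≤ K) :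
    |∑ n ∈ (sY Y).filter (fun n : ℕ => ¬ |Real.log n - Y| ≤ 1 / 2), a n * Fj K (Real.log n - u₀)| ≤
      E * (Y + 3) * (1300 / K) := by
  have hK0 : (0 : ℝ) < K := by exact_mod_cast hK
  have hpi := Real.pi_pos
  have hpi3 := Real.pi_gt_three
  have hpi4 : Real.pi ^ 2 ≤ 10 := by nlinarith [Real.pi_lt_d2]
  obtain ⟨hu1, hu2⟩ := abs_le.1 hu
  have hterm : ∀ n ∈ (sY Y).filter (fun n : ℕ => ¬ |Real.log n - Y| ≤ 1 / 2),
      |a n * Fj K (Real.log n - u₀)| ≤ |a n| * (1300 / K) := by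
    intro n hn
    obtain ⟨hn1, hn2⟩ := Finset.mem_filter.1 hn
    have hn0 := sY_mem hn1
    by_cases h3 : 3 / 2 < |Real.log n - Y|
    · rw [ha0 n hn0 h3]; simp
    · rw [not_lt] at h3
      rw [not_le] at hn2
      rw [abs_mul, abs_of_nonneg (Fj_nonneg _ _)]
      refine mul_le_mul_of_nonneg_left ?_ (abs_nonneg _)
      have h4 : 0.09 ≤ |Real.log n - u₀| := by
        have h5 : |Real.log n - Y| ≤ |Real.log n - u₀| + |u₀ - Y| := by
          have : Real.log n - Y = (Real.log n - u₀) + (u₀ - Y) := by ring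
          rw [this]; exact abs_add_le _ _
        linarith
      have h6 : |Real.log n - u₀| ≤ Real.pi := by
        have h5 : |Real.log n - u₀| ≤ |Real.log n - Y| + |u₀ - Y| := by
          have : Real.log n - u₀ = (Real.log n - Y) - (u₀ - Y) := by ring
          rw [this]; exact abs_sub _ _
        linarith
      have h7 : Real.log n - u₀ ≠ 0 := by
        intro h; rw [h] at h4; norm_num at h4
      refine (Fj_le_sq hK h7 h6).trans ?_
      have h8 : (0.0081 : ℝ) ≤ (Real.log n - u₀) ^ 2 := by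
        rw [← sq_abs]
        calc (0.0081 : ℝ) = 0.09 ^ 2 := by norm_num
          _ ≤ _ := by gcongr
      rw [div_le_div_iff₀ (by positivity) hK0]
      have h9 : (0 : ℝ) < (Real.log n - u₀) ^ 2 := by linarith
      calc Real.pi ^ 2 * K ≤ 10 * K := by gcongr
        _ ≤ 1300 * (0.0081 * K) := by linarith
        _ ≤ 1300 * (K * (Real.log n - u₀) ^ 2) := by nlinarith
  refine (Finset.abs_sum_le_sum_abs _ _).trans ((Finset.sum_le_sum hterm).trans ?_)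
  rw [← Finset.sum_mul]
  refine mul_le_mul_of_nonneg_right ?_ (by positivity)
  refine le_trans ?_ (sum_abs_le hY hE ha)
  exact Finset.sum_le_sum_of_subset_of_nonneg (Finset.filter_subset _ _) (fun n _ _ => abs_nonneg _)

/-- side terms: pieces of length `1/K` -/
lemma side {K J : ℕ} (hK : 1 ≤ K) (hJ : 1 ≤ J) (B : Finset ℕ) (x m : ℕ → ℝ) (CB : ℝ) (hCB : 0 ≤ CB)
    (hm : ∀ n ∈ B, 0 ≤ m n) (hx : ∀ n ∈ B, (J : ℝ) / K ≤ x n) (hx1 : ∀ n ∈ B, x n ≤ 1)
    (hpiece : ∀ j : ℕ, ∑ n ∈ B.filter (fun n => ⌊K * x n⌋₊ = j), m n ≤ CB / K) :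
    ∑ n ∈ B, m n * Fj K (x n) ≤ 20 * CB / J := by
  have hK0 : (0 : ℝ) < K := by exact_mod_cast hK
  have hJ0 : (0 : ℝ) < J := by exact_mod_cast hJ
  have hpi := Real.pi_pos
  have hpi3 := Real.pi_gt_three
  have hpi4 : Real.pi ^ 2 ≤ 10 := by nlinarith [Real.pi_lt_d2]
  have hx0 : ∀ n ∈ B, 0 < x n := fun n hn => lt_of_lt_of_le (by positivity) (hx n hn)
  have hmaps : ∀ n ∈ B, ⌊K * x n⌋₊ ∈ Ico J (K + 1) := by
    intro n hn
    rw [Finset.mem_Ico]
    constructor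
    · apply Nat.le_floor
      have := hx n hn
      rw [div_le_iff₀ hK0] at this
      linarith
    · rw [Nat.lt_succ_iff]
      have : (K : ℝ) * x n ≤ K := by nlinarith [hx1 n hn]
      exact Nat.floor_le_of_le this
  rw [← Finset.sum_fiberwise_of_maps_to hmaps]
  have h1 : ∀ j ∈ Ico J (K + 1), ∑ n ∈ B.filter (fun n => ⌊K * x n⌋₊ = j), m n * Fj K (x n) ≤
      10 * CB * (1 / (j : ℝ) ^ 2) := by
    intro j hj
    have hj1 : 1 ≤ j := hJ.trans (Finset.mem_Ico.1 hj).1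
    have hj0 : (0 : ℝ) < j := by exact_mod_cast hj1
    have h2 : ∀ n ∈ B.filter (fun n => ⌊K * x n⌋₊ = j), m n * Fj K (x n) ≤ m n * (10 * K / (j : ℝ) ^ 2) := by
      intro n hn
      obtain ⟨hn1, hn2⟩ := Finset.mem_filter.1 hn
      refine mul_le_mul_of_nonneg_left ?_ (hm n hn1)
      have h3 : (j : ℝ) ≤ K * x n := by
        rw [← hn2]; exact Nat.floor_le (mul_nonneg hK0.le (hx0 n hn1).le)
      have h4 : |x n| ≤ Real.pi := by
        rw [abs_of_pos (hx0 n hn1)]; linarith [hx1 n hn1]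
      refine (Fj_le_sq hK (hx0 n hn1).ne' h4).trans ?_
      have h5 := hx0 n hn1
      rw [div_le_div_iff₀ (by positivity) (by positivity)]
      have h6 : (j : ℝ) ^ 2 ≤ (K * x n) ^ 2 := by gcongr
      calc Real.pi ^ 2 * (j : ℝ) ^ 2 ≤ 10 * (K * x n) ^ 2 := by gcongr
        _ = 10 * K * (K * x n ^ 2) := by ring
    refine (Finset.sum_le_sum h2).trans ?_
    rw [← Finset.sum_mul]
    calc _ ≤ CB / K * (10 * K / (j : ℝ) ^ 2) := mul_le_mul_of_nonneg_right (hpiece j) (by positivity)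
      _ = _ := by field_simp
  refine (Finset.sum_le_sum h1).trans ?_
  rw [← Finset.mul_sum]
  have h2 := tail_sq J (K + 1) hJ
  calc _ ≤ 10 * CB * (2 / (J : ℝ)) := by gcongr
    _ = _ := by ring

/-- number of `k`-th powers in `(y, y + h]` -/
lemma pow_count {y h : ℝ} (hy : 0 < y) (hh : 0 ≤ h) {k : ℕ} (hk : 2 ≤ k) (N : ℕ) :
    (((range (N + 1)).filter (fun m : ℕ => y < (m : ℝ) ^ k ∧ (m : ℝ) ^ k ≤ y + h)).card : ℝ) ≤
      h / Real.sqrt y + 1 := by
  set S := (range (N + 1)).filter (fun m : ℕ => y < (m : ℝ) ^ k ∧ (m : ℝ) ^ k ≤ y + h) with hS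
  rcases S.eq_empty_or_nonempty with h0 | h0
  · rw [h0]; simp; positivity
  have hsq : 0 < Real.sqrt y := Real.sqrt_pos.2 hy
  set m₁ := S.min' h0 with hm₁
  set m₂ := S.max' h0 with hm₂
  have h1 := (Finset.mem_filter.1 (S.min'_mem h0)).2
  have h2 := (Finset.mem_filter.1 (S.max'_mem h0)).2
  rw [← hm₁] at h1
  rw [← hm₂] at h2
  have hle : m₁ ≤ m₂ := S.min'_le _ (S.max'_mem h0)
  have hle' : (m₁ : ℝ) ≤ m₂ := by exact_mod_cast hle
  have hsub : S ⊆ Icc m₁ m₂ := fun m hm => Finset.mem_Icc.2 ⟨S.min'_le m hm, S.le_max' m hm⟩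
  have hcard : (S.card : ℝ) ≤ (m₂ : ℝ) - m₁ + 1 := by
    have := Finset.card_le_card hsub
    rw [Nat.card_Icc] at this
    have h3 : (S.card : ℝ) ≤ ((m₂ + 1 - m₁ : ℕ) : ℝ) := by exact_mod_cast this
    rw [Nat.cast_sub (by omega)] at h3
    push_cast at h3
    linarith
  have hm10 : 1 ≤ m₁ := by
    by_contra h3
    have : m₁ = 0 := by omega
    rw [this] at h1
    simp only [Nat.cast_zero, zero_pow (by omega : k ≠ 0)] at h1
    linarith [h1.1]
  have hm10' : (1 : ℝ) ≤ m₁ := by exact_mod_cast hm10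
  obtain ⟨l, rfl⟩ : ∃ l, k = l + 1 := ⟨k - 1, by omega⟩
  have hl : 1 ≤ l := by omega
  have hroot : Real.sqrt y ≤ (m₁ : ℝ) ^ l := by
    rw [Real.sqrt_le_left (by positivity)]
    calc y ≤ (m₁ : ℝ) ^ (l + 1) := h1.1.le
      _ ≤ (m₁ : ℝ) ^ (l * 2) := pow_le_pow_right₀ hm10' (by omega)
      _ = ((m₁ : ℝ) ^ l) ^ 2 := by rw [pow_mul]
  have hdiff : ((m₂ : ℝ) - m₁) * Real.sqrt y ≤ h := by
    have e1 : (m₂ : ℝ) ^ (l + 1) - (m₁ : ℝ) ^ (l + 1) ≤ h := by linarith [h1.1, h2.2]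
    have e2 : ((m₂ : ℝ) - m₁) * (m₁ : ℝ) ^ l ≤ (m₂ : ℝ) ^ (l + 1) - (m₁ : ℝ) ^ (l + 1) := by
      have e3 : (m₁ : ℝ) ^ l ≤ (m₂ : ℝ) ^ l := by gcongr
      rw [pow_succ, pow_succ]
      nlinarith [mul_nonneg (by linarith : (0 : ℝ) ≤ m₂) (sub_nonneg.2 e3)]
    calc ((m₂ : ℝ) - m₁) * Real.sqrt y ≤ ((m₂ : ℝ) - m₁) * (m₁ : ℝ) ^ l := by
          apply mul_le_mul_of_nonneg_left hroot; linarith
      _ ≤ h := e2.trans e1
  have : (m₂ : ℝ) - m₁ ≤ h / Real.sqrt y := by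
    rw [le_div_iff₀ hsq]; exact hdiff
  linarith

/-- number of proper prime powers in `(y, y + h]` -/
lemma ppow_count {Y y h : ℝ} (hY : 1 ≤ Y) (hy : 0 < y) (hh : 0 ≤ h) (hyh : y + h ≤ Real.exp (Y + 1)) :
    (((Ioc ⌊y⌋₊ ⌊y + h⌋₊).filter (fun n => IsPrimePow n ∧ ¬ n.Prime)).card : ℝ) ≤
      (2 * Y + 2) * (h / Real.sqrt y + 1) := by
  classical
  set N := ⌊y + h⌋₊ with hN
  set B := ⌊2 * Y + 2⌋₊ with hB
  have hsub : (Ioc ⌊y⌋₊ N).filter (fun n => IsPrimePow n ∧ ¬ n.Prime) ⊆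
      (Icc 2 B).biUnion (fun k => ((range (N + 1)).filter
        (fun m : ℕ => y < (m : ℝ) ^ k ∧ (m : ℝ) ^ k ≤ y + h)).image (fun m => m ^ k)) := by
    intro n hn
    obtain ⟨hn1, hn2, hn3⟩ := Finset.mem_filter.1 hn
    obtain ⟨p, k, hp, hk, hpk⟩ := (isPrimePow_nat_iff n).1 hn2
    obtain ⟨hn4, hn5⟩ := Finset.mem_Ioc.1 hn1
    have hy1 : y < n := (Nat.floor_lt hy.le).1 hn4
    have hy2 : (n : ℝ) ≤ y + h := (Nat.le_floor_iff (by linarith)).1 hn5
    have hk2 : 2 ≤ k := by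
      by_contra h
      have : k = 1 := by omega
      rw [this, pow_one] at hpk
      rw [hpk] at hp
      exact hn3 hp
    have hkB : k ≤ B := by
      apply Nat.le_floor
      have h1 : (2 : ℝ) ^ k ≤ n := by
        rw [← hpk]; push_cast
        have : (2 : ℝ) ≤ p := by exact_mod_cast hp.two_le
        gcongr
      have h2 : (2 : ℝ) ^ k ≤ Real.exp (Y + 1) := by linarith
      have h3 : (k : ℝ) * Real.log 2 ≤ Y + 1 := by
        have := Real.log_le_log (by positivity) h2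
        rw [Real.log_exp, Real.log_pow] at this
        exact this
      have h4 : (0.5 : ℝ) < Real.log 2 := by linarith [Real.log_two_gt_d9]
      nlinarith [(Nat.cast_nonneg k : (0 : ℝ) ≤ k)]
    rw [Finset.mem_biUnion]
    refine ⟨k, Finset.mem_Icc.2 ⟨hk2, hkB⟩, Finset.mem_image.2 ⟨p, Finset.mem_filter.2 ⟨?_, ?_, ?_⟩, hpk⟩⟩
    · rw [Finset.mem_range, Nat.lt_succ_iff]
      refine le_trans ?_ hn5
      rw [← hpk]
      exact Nat.le_self_pow (by omega) p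
    · have : ((p : ℝ)) ^ k = n := by rw [← hpk]; push_cast; rfl
      rw [this]; exact hy1
    · have : ((p : ℝ)) ^ k = n := by rw [← hpk]; push_cast; rfl
      rw [this]; exact hy2
  have h1 := (Finset.card_le_card hsub).trans Finset.card_biUnion_le
  have h2 : (((Ioc ⌊y⌋₊ N).filter (fun n => IsPrimePow n ∧ ¬ n.Prime)).card : ℝ) ≤
      ∑ k ∈ Icc 2 B, ((((range (N + 1)).filter
        (fun m : ℕ => y < (m : ℝ) ^ k ∧ (m : ℝ) ^ k ≤ y + h)).image (fun m => m ^ k)).card : ℝ) := by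
    exact_mod_cast h1
  refine h2.trans ?_
  have h3 : ∀ k ∈ Icc 2 B, ((((range (N + 1)).filter
        (fun m : ℕ => y < (m : ℝ) ^ k ∧ (m : ℝ) ^ k ≤ y + h)).image (fun m => m ^ k)).card : ℝ) ≤
      h / Real.sqrt y + 1 := by
    intro k hk
    refine le_trans ?_ (pow_count hy hh (Finset.mem_Icc.1 hk).1 N)
    exact_mod_cast Finset.card_image_le
  refine (Finset.sum_le_card_nsmul _ _ _ h3).trans ?_
  rw [nsmul_eq_mul]
  have h4 : ((Icc 2 B).card : ℝ) ≤ 2 * Y + 2 := by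
    rw [Nat.card_Icc]
    have : ((B + 1 - 2 : ℕ) : ℝ) ≤ B := by exact_mod_cast (by omega : B + 1 - 2 ≤ B)
    exact this.trans (Nat.floor_le (by linarith))
  have h5 : 0 ≤ h / Real.sqrt y + 1 := by positivity
  gcongr

/-- the sum of `Λ(n)/n` over `(y, y + h]` -/
lemma middle {Y y h : ℝ} (hY : 1 ≤ Y) (hy : 0 < y) (hh : 0 ≤ h) (hyh : y + h ≤ Real.exp (Y + 1)) :
    ∑ n ∈ Ioc ⌊y⌋₊ ⌊y + h⌋₊, ArithmeticFunction.vonMangoldt n / n ≤
      ((pic y h : ℝ) + (2 * Y + 2) * (h / Real.sqrt y + 1)) * ((Y + 1) / y) := by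
  classical
  set S := Ioc ⌊y⌋₊ ⌊y + h⌋₊ with hS
  have hb : ∀ n ∈ S, ArithmeticFunction.vonMangoldt n / n ≤ (Y + 1) / y := by
    intro n hn
    obtain ⟨hn4, hn5⟩ := Finset.mem_Ioc.1 hn
    have hy1 : y < n := (Nat.floor_lt hy.le).1 hn4
    have hy2 : (n : ℝ) ≤ y + h := (Nat.le_floor_iff (by linarith)).1 hn5
    have hn0 : (0 : ℝ) < n := by linarith
    have h1 : ArithmeticFunction.vonMangoldt n ≤ Y + 1 := by
      refine ArithmeticFunction.vonMangoldt_le_log.trans ?_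
      rw [Real.log_le_iff_le_exp hn0]
      linarith
    gcongr
  have hsplit : ∑ n ∈ S, ArithmeticFunction.vonMangoldt n / n ≤
      ∑ n ∈ S.filter Nat.Prime, ArithmeticFunction.vonMangoldt n / n +
      ∑ n ∈ S.filter (fun n => IsPrimePow n ∧ ¬ n.Prime), ArithmeticFunction.vonMangoldt n / n := by
    rw [← Finset.sum_filter_add_sum_filter_not S Nat.Prime]
    gcongr 1
    have hsub : S.filter (fun n => IsPrimePow n ∧ ¬ n.Prime) ⊆ S.filter (fun n => ¬ n.Prime) := by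
      intro n hn
      obtain ⟨h1, h2⟩ := Finset.mem_filter.1 hn
      exact Finset.mem_filter.2 ⟨h1, h2.2⟩
    refine (Finset.sum_subset hsub ?_).symm.le
    intro n hn hn2
    obtain ⟨h1, h2⟩ := Finset.mem_filter.1 hn
    have h3 : ¬ IsPrimePow n := fun h => hn2 (Finset.mem_filter.2 ⟨h1, h, h2⟩)
    rw [ArithmeticFunction.vonMangoldt_apply, if_neg h3, zero_div]
  have hp : ∑ n ∈ S.filter Nat.Prime, ArithmeticFunction.vonMangoldt n / n ≤ (pic y h : ℝ) * ((Y + 1) / y) := by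
    refine (Finset.sum_le_card_nsmul _ _ _ (fun n hn => hb n (Finset.mem_filter.1 hn).1)).trans ?_
    rw [nsmul_eq_mul]
    unfold pic
    rfl
  have hq : ∑ n ∈ S.filter (fun n => IsPrimePow n ∧ ¬ n.Prime), ArithmeticFunction.vonMangoldt n / n ≤
      ((2 * Y + 2) * (h / Real.sqrt y + 1)) * ((Y + 1) / y) := by
    refine (Finset.sum_le_card_nsmul _ _ _ (fun n hn => hb n (Finset.mem_filter.1 hn).1)).trans ?_
    rw [nsmul_eq_mul]
    refine mul_le_mul_of_nonneg_right (ppow_count hY hy hh hyh) (by positivity)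
  linarith

end Pool.Agent.Q257.KS
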