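import Pool.Agent.Q240.KS.Stm1

/-! # KS-HB (helper257, for helper240): Heath-Brown's identity with `J = 5` -/

set_option autoImplicit false

namespace Pool.Agent.Q257.KS
open Finset Pool.Agent.Q240.KS

/-- evaluation at `n` as an additive homomorphism -/
noncomputable def evn (n : ℕ) : ArithmeticFunction ℝ →+ ℝ where
  toFun f := f n
  map_zero' := by simp
  map_add' f g := by simp

/-- if `f` vanishes below `a` and `g` vanishes below `b` then `f g` vanishes below `a b` -/
lemma mul_vanish {f g : ArithmeticFunction ℝ} {a b : ℕ} (hf : ∀ n, n < a → f n = 0)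
    (hg : ∀ n, n < b → g n = 0) : ∀ n, n < a * b → (f * g) n = 0 := by
  intro n hn
  rw [ArithmeticFunction.mul_apply]
  refine Finset.sum_eq_zero fun p hp => ?_
  have hp' := Nat.mem_divisorsAntidiagonal.1 hp
  by_cases h1 : p.1 < a
  · rw [hf _ h1, zero_mul]
  · by_cases h2 : p.2 < b
    · rw [hg _ h2, mul_zero]
    · exfalso
      have := Nat.mul_le_mul (not_lt.1 h1) (not_lt.1 h2)
      rw [hp'.1] at this
      omega

lemma pow_vanish {f : ArithmeticFunction ℝ} {a : ℕ} (hf : ∀ n, n < a → f n = 0) (j : ℕ) :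
    ∀ n, n < a ^ (j + 1) → (f ^ (j + 1)) n = 0 := by
  induction j with
  | zero => simpa using hf
  | succ j ih =>
    intro n hn
    rw [pow_succ]
    rw [pow_succ] at hn
    exact mul_vanish ih hf n hn

lemma eta_vanish (z : ℕ) (hz : 1 ≤ z) : ∀ n, n < z + 1 →
    (1 - ((ArithmeticFunction.zeta : ArithmeticFunction ℕ) : ArithmeticFunction ℝ) * Mz z) n = 0 := by
  intro n hn
  rcases Nat.eq_zero_or_pos n with h0 | h0
  · subst h0; simp
  have h1 : (((ArithmeticFunction.zeta : ArithmeticFunction ℕ) : ArithmeticFunction ℝ) * Mz z) n =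
      (((ArithmeticFunction.zeta : ArithmeticFunction ℕ) : ArithmeticFunction ℝ) *
        ((ArithmeticFunction.moebius : ArithmeticFunction ℤ) : ArithmeticFunction ℝ)) n := by
    rw [ArithmeticFunction.coe_zeta_mul_apply, ArithmeticFunction.coe_zeta_mul_apply]
    refine Finset.sum_congr rfl fun d hd => ?_
    have hd' : d ≤ z := (Nat.divisor_le hd).trans (by omega)
    simp [Mz, hd']
  have h2 : (1 - ((ArithmeticFunction.zeta : ArithmeticFunction ℕ) : ArithmeticFunction ℝ) * Mz z) n =
      (1 : ArithmeticFunction ℝ) n -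
        (((ArithmeticFunction.zeta : ArithmeticFunction ℕ) : ArithmeticFunction ℝ) * Mz z) n := by
    have := map_sub (evn n) (1 : ArithmeticFunction ℝ)
      (((ArithmeticFunction.zeta : ArithmeticFunction ℕ) : ArithmeticFunction ℝ) * Mz z)
    simpa [evn] using this
  rw [h2, h1, ArithmeticFunction.coe_zeta_mul_coe_moebius, sub_self]

theorem hb : S_HB := by
  intro z n hz hn hnz
  set ζ : ArithmeticFunction ℝ := ((ArithmeticFunction.zeta : ArithmeticFunction ℕ) : ArithmeticFunction ℝ) with hζ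
  set M := Mz z with hM
  have hE : ((ArithmeticFunction.vonMangoldt * (1 - ζ * M) ^ 5 : ArithmeticFunction ℝ)) n = 0 := by
    have h5 := pow_vanish (eta_vanish z hz) 4
    rw [ArithmeticFunction.mul_apply]
    refine Finset.sum_eq_zero fun p hp => ?_
    have hp' := Nat.mem_divisorsAntidiagonal.1 hp
    have hle : p.2 ≤ n := Nat.le_of_dvd (by omega) ⟨p.1, by rw [← hp'.1]; ring⟩
    rw [h5 p.2 (by simpa using lt_of_le_of_lt hle hnz), mul_zero]
  have hLz : ArithmeticFunction.vonMangoldt * ζ = ArithmeticFunction.log :=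
    ArithmeticFunction.vonMangoldt_mul_zeta
  have hid : (ArithmeticFunction.vonMangoldt : ArithmeticFunction ℝ) =
      ArithmeticFunction.vonMangoldt * (1 - ζ * M) ^ 5 +
      ((5 : ℤ) • (M ^ 1 * ζ ^ 0 * ArithmeticFunction.log) + (-10 : ℤ) • (M ^ 2 * ζ ^ 1 * ArithmeticFunction.log) +
       (10 : ℤ) • (M ^ 3 * ζ ^ 2 * ArithmeticFunction.log) + (-5 : ℤ) • (M ^ 4 * ζ ^ 3 * ArithmeticFunction.log) +
       (1 : ℤ) • (M ^ 5 * ζ ^ 4 * ArithmeticFunction.log)) := by
    rw [← hLz]
    simp only [zsmul_eq_mul]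
    push_cast
    ring
  have hev := congrArg (evn n) hid
  simp only [map_add, map_zsmul] at hev
  have e1 : evn n (ArithmeticFunction.vonMangoldt * (1 - ζ * M) ^ 5) = 0 := hE
  rw [e1, zero_add] at hev
  have e2 : ∀ f : ArithmeticFunction ℝ, evn n f = f n := fun f => rfl
  simp only [e2, zsmul_eq_mul] at hev
  rw [hev]
  have hI : Icc 1 5 = ({1, 2, 3, 4, 5} : Finset ℕ) := by decide
  rw [hI]
  rw [Finset.sum_insert (by decide), Finset.sum_insert (by decide), Finset.sum_insert (by decide),
    Finset.sum_insert (by decide), Finset.sum_singleton]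
  norm_num [Nat.choose]
  ring

end Pool.Agent.Q257.KS
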