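import Pool.Agent.Q240.KS.Stm1
import Pool.Agent.H295R3.Hoheisel

/-! # KS-HOL (helper257, for helper240): Hoheisel's theorem for `Λ(n)/n` on short intervals of `log n` -/

set_option autoImplicit false

namespace Pool.Agent.Q257.KS
open Finset Pool.Agent.Q240.KS

theorem hol_of (H : Pool.Agent.H469R10.HO.Hoheisel) : S_HOL := by
  obtain ⟨δ, η, hδ, hδ1, hη, X₀, hX₀, hH⟩ := H
  refine ⟨min (δ / 10) (1 / 20), η / 4, max (10 / δ) (max 20 (Real.log X₀ + 2)), by positivity, min_le_right _ _,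
    by positivity, ?_⟩
  intro Y v h hY hv hh1 hh2
  set e4 := min (δ / 10) (1 / 20) with he4
  have hY1 : 10 / δ ≤ Y := (le_max_left _ _).trans hY
  have hY2 : 20 ≤ Y := ((le_max_left _ _).trans (le_max_right _ _)).trans hY
  have hY3 : Real.log X₀ + 2 ≤ Y := ((le_max_right _ _).trans (le_max_right _ _)).trans hY
  obtain ⟨hv1, hv2⟩ := abs_le.1 hv
  have h4a : e4 ≤ δ / 10 := min_le_left _ _
  have h4b : e4 ≤ 1 / 20 := min_le_right _ _
  have hh0 : 0 < h := lt_of_lt_of_le (Real.exp_pos _) hh1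
  have hv0 : 19 ≤ v := by linarith
  have hev : 0 < Real.exp v := Real.exp_pos v
  -- h e^v ≥ e^{v - 4 e4 Y}
  have hhev : Real.exp (v - 4 * e4 * Y) ≤ h * Real.exp v := by
    have : Real.exp (v - 4 * e4 * Y) = Real.exp (-(4 * e4 * Y)) * Real.exp v := by
      rw [← Real.exp_add]; congr 1; ring
    rw [this]; gcongr
  have hbig : 14 ≤ h * Real.exp v := by
    refine le_trans ?_ hhev
    have h1 : 4 * e4 * Y ≤ Y / 5 := by nlinarith
    have h2 : (14 : ℝ) ≤ v - 4 * e4 * Y := by linarith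
    have := Real.add_one_le_exp (v - 4 * e4 * Y)
    linarith
  -- exp h - 1
  have heh1 : 1 + h ≤ Real.exp h := by have := Real.add_one_le_exp h; linarith
  have heh2 : Real.exp h ≤ 1 + 2 * h := by
    have h3 := Real.exp_bound_div_one_sub_of_interval hh0.le (by linarith : h < 1)
    refine h3.trans ?_
    rw [div_le_iff₀ (by linarith)]
    nlinarith
  have hevh : Real.exp (v + h) = Real.exp v * Real.exp h := Real.exp_add v h
  set X : ℕ := ⌊Real.exp v⌋₊ with hX
  set Z : ℕ := ⌊Real.exp (v + h)⌋₊ with hZ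
  have hXle : (X : ℝ) ≤ Real.exp v := Nat.floor_le hev.le
  have hXgt : Real.exp v < X + 1 := Nat.lt_floor_add_one _
  have hZle : (Z : ℝ) ≤ Real.exp (v + h) := Nat.floor_le (Real.exp_pos _).le
  have hZgt : Real.exp (v + h) < Z + 1 := Nat.lt_floor_add_one _
  have hev20 : (20 : ℝ) ≤ Real.exp v := by
    have := Real.add_one_le_exp v; linarith
  have hXZ : X ≤ Z := Nat.floor_le_floor (Real.exp_le_exp.2 (by linarith))
  have hY'cast : (((Z - X : ℕ)) : ℝ) = Z - X := by push_cast [Nat.cast_sub hXZ]; ring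
  have hY'lo : h * Real.exp v / 2 ≤ ((Z - X : ℕ) : ℝ) := by
    rw [hY'cast]
    have : Real.exp v * (1 + h) ≤ Real.exp (v + h) := by rw [hevh]; gcongr
    nlinarith
  have hY'hi : Z - X ≤ X := by
    have h1 : ((Z - X : ℕ) : ℝ) ≤ X := by
      rw [hY'cast]
      have : Real.exp (v + h) ≤ Real.exp v * (1 + 2 * h) := by rw [hevh]; gcongr
      nlinarith
    exact_mod_cast h1
  have hX0 : X₀ ≤ X := by
    have h1 : Real.log X₀ ≤ v := by linarith
    have hX₀pos : (0 : ℝ) < X₀ := by exact_mod_cast (by omega : 0 < X₀)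
    have h2 : (X₀ : ℝ) ≤ Real.exp v := by
      rw [← Real.exp_log hX₀pos]; exact Real.exp_le_exp.2 h1
    exact Nat.le_floor h2
  have hX1 : (1 : ℝ) < X := by linarith
  have hlogX : Real.log X ≤ v := by
    rw [Real.log_le_iff_le_exp (by linarith)]; exact hXle
  have hlogX0 : 0 < Real.log X := Real.log_pos hX1
  have hpow : (X : ℝ) ^ (1 - δ) ≤ ((Z - X : ℕ) : ℝ) := by
    calc (X : ℝ) ^ (1 - δ) ≤ (Real.exp v) ^ (1 - δ) :=
          Real.rpow_le_rpow (by linarith) hXle (by linarith)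
      _ = Real.exp (v * (1 - δ)) := by rw [← Real.exp_mul]
      _ ≤ Real.exp (v - 4 * e4 * Y - 1) := by
          apply Real.exp_le_exp.2
          have h1 : δ * Y ≥ 10 := by rw [div_le_iff₀ hδ] at hY1; linarith
          have h2 : 4 * e4 * Y ≤ 4 * (δ / 10) * Y := by gcongr
          nlinarith
      _ = Real.exp (v - 4 * e4 * Y) * Real.exp (-1) := by rw [← Real.exp_add]; ring_nf
      _ ≤ (h * Real.exp v) * (1 / 2) := by
          have h3 : Real.exp (-1) ≤ 1 / 2 := by
            rw [Real.exp_neg, inv_eq_one_div]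
            have := Real.add_one_le_exp (1 : ℝ)
            exact one_div_le_one_div_of_le (by norm_num) (by linarith)
          gcongr
      _ = h * Real.exp v / 2 := by ring
      _ ≤ _ := hY'lo
  have hmain := hH X (Z - X) hX0 hpow hY'hi
  have hXZ' : X + (Z - X) = Z := by omega
  rw [hXZ'] at hmain
  -- lower bound of SL
  have hsub : (Ioc X Z).filter Nat.Prime ⊆ (Icc 1 Z).filter (fun n : ℕ => v ≤ Real.log n) := by
    intro p hp
    obtain ⟨hp1, hp2⟩ := Finset.mem_filter.1 hp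
    obtain ⟨hp3, hp4⟩ := Finset.mem_Ioc.1 hp1
    refine Finset.mem_filter.2 ⟨Finset.mem_Icc.2 ⟨hp2.one_le, hp4⟩, ?_⟩
    have h1 : Real.exp v < p := (Nat.floor_lt hev.le).1 hp3
    rw [Real.le_log_iff_exp_le (by linarith)]
    exact h1.le
  have hSL : ∑ p ∈ (Ioc X Z).filter Nat.Prime, ArithmeticFunction.vonMangoldt p / p ≤ SL v h := by
    unfold SL
    refine Finset.sum_le_sum_of_subset_of_nonneg hsub (fun n _ _ => ?_)
    exact div_nonneg ArithmeticFunction.vonMangoldt_nonneg (Nat.cast_nonneg _)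
  have hterm : ∀ p ∈ (Ioc X Z).filter Nat.Prime, v / Real.exp (v + h) ≤ ArithmeticFunction.vonMangoldt p / p := by
    intro p hp
    obtain ⟨hp1, hp2⟩ := Finset.mem_filter.1 hp
    obtain ⟨hp3, hp4⟩ := Finset.mem_Ioc.1 hp1
    rw [ArithmeticFunction.vonMangoldt_apply_prime hp2]
    have h1 : Real.exp v < p := (Nat.floor_lt hev.le).1 hp3
    have h2 : v ≤ Real.log p := by
      rw [Real.le_log_iff_exp_le (by linarith)]; exact h1.le
    have h3 : (p : ℝ) ≤ Real.exp (v + h) := (Nat.le_floor_iff (Real.exp_pos _).le).1 hp4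
    have hp0 : (0 : ℝ) < p := by linarith
    gcongr
  have hcard : (((Ioc X Z).filter Nat.Prime).card : ℝ) * (v / Real.exp (v + h)) ≤
      ∑ p ∈ (Ioc X Z).filter Nat.Prime, ArithmeticFunction.vonMangoldt p / p := by
    have := Finset.card_nsmul_le_sum _ _ _ hterm
    rwa [nsmul_eq_mul] at this
  have hfin : η / 4 * h ≤ η * ((Z - X : ℕ) : ℝ) / Real.log X * (v / Real.exp (v + h)) := by
    have h1 : η * (h * Real.exp v / 2) / v * (v / Real.exp (v + h)) ≤
        η * ((Z - X : ℕ) : ℝ) / Real.log X * (v / Real.exp (v + h)) := by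
      gcongr
    refine le_trans ?_ h1
    have h2 : η * (h * Real.exp v / 2) / v * (v / Real.exp (v + h)) = η / 2 * h / Real.exp h := by
      rw [hevh]; field_simp
    rw [h2, le_div_iff₀ (Real.exp_pos h)]
    have h3 : Real.exp h ≤ 2 := by linarith
    calc η / 4 * h * Real.exp h ≤ η / 4 * h * 2 := by gcongr
      _ = η / 2 * h := by ring
  calc η / 4 * h ≤ _ := hfin
    _ ≤ (((Ioc X Z).filter Nat.Prime).card : ℝ) * (v / Real.exp (v + h)) := by gcongr
    _ ≤ _ := hcard
    _ ≤ _ := hSL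

theorem hol : S_HOL := hol_of Pool.Agent.H295R3.D.hoheisel

end Pool.Agent.Q257.KS
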